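import Pool.Agent.Lib.MP_9f2731_nt.GP.Rel.Spec

/-!
MP_9f2731_nt, GP/Rel/Upd: averages and update of one coordinate (helper77, after helper78's docstring).
-/

namespace Pool.Agent.Lib.MP_9f2731_nt.GP.Rel

open Finset

/-- the exchange of a coordinate and a free value -/
private def updEquiv {ι V : Type} [DecidableEq ι] (a : ι) :
    ((ι → V) × V) ≃ ((ι → V) × V) where
  toFun p := (Function.update p.1 a p.2, p.1 a)
  invFun p := (Function.update p.1 a p.2, p.1 a)
  left_inv p := by
    rcases p with ⟨x, v⟩
    ext <;> simp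
  right_inv p := by
    rcases p with ⟨x, v⟩
    ext <;> simp

theorem pUpd : UpdStmt := by
  intro ι V _ _ _ _ a g
  have hV : (Fintype.card V : ℝ) ≠ 0 := by
    have := Fintype.card_pos (α := V)
    positivity
  have hkey : ∑ x : ι → V, ∑ v : V, g (Function.update x a v) =
      (Fintype.card V : ℝ) * ∑ x : ι → V, g x := by
    rw [← Fintype.sum_prod_type' (fun (x : ι → V) (v : V) => g (Function.update x a v))]
    have h1 : ∑ p : (ι → V) × V, g (Function.update p.1 a p.2) =
        ∑ p : (ι → V) × V, g p.1 :=
      Fintype.sum_equiv (updEquiv a) _ _ (fun p => rfl)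
    rw [h1, Fintype.sum_prod_type' (fun (x : ι → V) (_ : V) => g x)]
    simp only [Finset.sum_const, Finset.card_univ, nsmul_eq_mul]
    rw [Finset.mul_sum]
  unfold av
  rw [← Finset.sum_div, hkey]
  field_simp

end Pool.Agent.Lib.MP_9f2731_nt.GP.Rel
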