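import Pool.Agent.Lib.MP_9f2731_nt.GP.Rel.Spec

/-!
MP_9f2731_nt, GP/Rel: the change of variables for progressions.
-/

namespace Pool.Agent.Lib.MP_9f2731_nt.GP.Rel

open Finset

private theorem cfg_frm {G : Type} [AddCommGroup G] {k : ℕ} (j : Fin k) (y : Fin k → G) :
    frm j y = (∑ i : Fin k, ((i : ℕ) : ℤ) • y i) + (j : ℕ) • (-(∑ i : Fin k, y i)) := by
  unfold frm
  rw [smul_neg, Finset.smul_sum, ← sub_eq_add_neg, ← Finset.sum_sub_distrib]
  refine Finset.sum_congr rfl (fun i _ => ?_)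
  rw [sub_smul, natCast_zsmul, natCast_zsmul]

private theorem cfg_inner {G : Type} [AddCommGroup G] [Fintype G] (g : G → G → ℝ) (c s : G) :
    ∑ x0 : G, ∑ x1 : G, g (x1 + c) (-(x0 + (x1 + s))) = ∑ x : G, ∑ d : G, g x d := by
  rw [Finset.sum_comm]
  have h1 : ∀ x1 : G, ∑ x0 : G, g (x1 + c) (-(x0 + (x1 + s))) = ∑ d : G, g (x1 + c) d := by
    intro x1
    exact Fintype.sum_equiv ((Equiv.addRight (x1 + s)).trans (Equiv.neg G)) _ _ (fun x0 => rfl)
  rw [Finset.sum_congr rfl (fun x1 _ => h1 x1)]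
  exact Fintype.sum_equiv (Equiv.addRight c) _ _ (fun x1 => rfl)

theorem pCfg : CfgStmt := by
  intro k G _ _ f hk
  obtain ⟨m, rfl⟩ : ∃ m, k = m + 2 := ⟨k - 2, by omega⟩
  set g : G → G → ℝ := fun x d => ∏ j : Fin (m + 2), f (x + (j : ℕ) • d) with hg
  have hF : ∀ x : Fin (m + 2) → G, (∏ j, f (frm j x)) =
      g (∑ i : Fin (m + 2), ((i : ℕ) : ℤ) • x i) (-(∑ i : Fin (m + 2), x i)) := by
    intro x
    rw [hg]
    exact Finset.prod_congr rfl (fun j _ => by rw [cfg_frm])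
  have hsum : ∑ x : Fin (m + 2) → G, ∏ j, f (frm j x) =
      (Fintype.card G : ℝ) ^ m * ∑ x : G, ∑ d : G, g x d := by
    rw [Finset.sum_congr rfl (fun x _ => hF x)]
    rw [← Equiv.sum_comp (Fin.consEquiv (fun _ : Fin (m + 2) => G)), Fintype.sum_prod_type]
    have h1 : ∀ x0 : G, ∑ y : Fin (m + 1) → G,
        g (∑ i : Fin (m + 2), ((i : ℕ) : ℤ) • (Fin.consEquiv (fun _ : Fin (m + 2) => G)) (x0, y) i)
          (-(∑ i : Fin (m + 2), (Fin.consEquiv (fun _ : Fin (m + 2) => G)) (x0, y) i)) =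
        ∑ z : Fin m → G, ∑ x1 : G, g (x1 + ∑ i : Fin m, (((i : ℕ) + 2 : ℕ) : ℤ) • z i)
          (-(x0 + (x1 + ∑ i : Fin m, z i))) := by
      intro x0
      rw [← Equiv.sum_comp (Fin.consEquiv (fun _ : Fin (m + 1) => G)), Fintype.sum_prod_type, Finset.sum_comm]
      refine Finset.sum_congr rfl (fun z _ => Finset.sum_congr rfl (fun x1 _ => ?_))
      congr 1
      · rw [Fin.sum_univ_succ, Fin.sum_univ_succ]
        simp [Fin.consEquiv]
        refine Finset.sum_congr rfl (fun i _ => ?_)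
        rw [add_assoc, one_add_one_eq_two]
      · rw [Fin.sum_univ_succ, Fin.sum_univ_succ]
        simp [Fin.consEquiv]
    rw [Finset.sum_congr rfl (fun x0 _ => h1 x0), Finset.sum_comm]
    have h2 : ∀ z : Fin m → G, ∑ x0 : G, ∑ x1 : G, g (x1 + ∑ i : Fin m, (((i : ℕ) + 2 : ℕ) : ℤ) • z i)
          (-(x0 + (x1 + ∑ i : Fin m, z i))) = ∑ x : G, ∑ d : G, g x d := fun z => cfg_inner g _ _
    rw [Finset.sum_congr rfl (fun z _ => h2 z), Finset.sum_const, Finset.card_univ, Fintype.card_fun,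
      Fintype.card_fin, nsmul_eq_mul, Nat.cast_pow]
  unfold av
  rw [hsum, Fintype.card_fun, Fintype.card_fin, Nat.cast_pow]
  have hG : (Fintype.card G : ℝ) ≠ 0 := by
    have : 0 < Fintype.card G := Fintype.card_pos_iff.2 ⟨0⟩
    positivity
  rw [pow_add]
  field_simp
  rfl

end Pool.Agent.Lib.MP_9f2731_nt.GP.Rel
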