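import Pool.Agent.Lib.MP_9f2731_nt.GP.Rel.Spec

/-!
MP_9f2731_nt, GP/Rel, module Cfm (helper44): change of variables.
-/

namespace Pool.Agent.Lib.MP_9f2731_nt.GP.Rel

open Finset

private theorem cfm_bij {r : ℕ} {G : Type} [AddCommGroup G] [Fintype G]
    (hinj : ∀ n : ℕ, 1 ≤ n → n ≤ r → Function.Injective (fun x : G => n • x)) (j : Fin (r + 1))
    (a : Fin r) :
    Function.Bijective (fun x : G => ((((j.succAbove a : Fin (r + 1)) : ℕ) : ℤ) - ((j : ℕ) : ℤ)) • x) := by
  set c : ℤ := (((j.succAbove a : Fin (r + 1)) : ℕ) : ℤ) - ((j : ℕ) : ℤ) with hc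
  have hne : (j.succAbove a : Fin (r + 1)) ≠ j := Fin.succAbove_ne j a
  have hne' : ((j.succAbove a : Fin (r + 1)) : ℕ) ≠ (j : ℕ) := fun h => hne (Fin.ext h)
  have h1 : ((j.succAbove a : Fin (r + 1)) : ℕ) < r + 1 := (j.succAbove a).2
  have h2 : (j : ℕ) < r + 1 := j.2
  have h3 : 1 ≤ c.natAbs := by omega
  have h4 : c.natAbs ≤ r := by omega
  have h5 := hinj c.natAbs h3 h4
  refine (Finite.injective_iff_bijective).mp ?_
  intro x y hxy
  have hxy' : c • x = c • y := hxy
  apply h5
  show c.natAbs • x = c.natAbs • y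
  rcases Int.natAbs_eq c with h | h
  · rw [h, natCast_zsmul, natCast_zsmul] at hxy'
    exact hxy'
  · rw [h, neg_smul, neg_smul, neg_inj, natCast_zsmul, natCast_zsmul] at hxy'
    exact hxy'

/-- the point with v at j and the solutions elsewhere -/
private def cfmX {r : ℕ} {G : Type} (j : Fin (r + 1)) (e : Fin r → G ≃ G) (v : G)
    (y : Fin r → G) : Fin (r + 1) → G :=
  Fin.insertNth (α := fun _ => G) j v (fun a => (e a).symm (y a))

/-- the equivalence -/
private def cfmE {r : ℕ} {G : Type} (j : Fin (r + 1)) (e : Fin r → G ≃ G) :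
    G × (Fin r → G) ≃ (Fin (r + 1) → G) :=
  ((Equiv.refl G).prodCongr (Equiv.piCongrRight (fun a => (e a).symm))).trans
    (Fin.insertNthEquiv (fun _ => G) j)

private theorem cfmE_apply {r : ℕ} {G : Type} (j : Fin (r + 1)) (e : Fin r → G ≃ G) (v : G)
    (y : Fin r → G) : cfmE j e (v, y) = cfmX j e v y := rfl

private theorem cfm_av {r : ℕ} {G : Type} [Fintype G] (j : Fin (r + 1)) (e : Fin r → G ≃ G)
    (F : (Fin (r + 1) → G) → ℝ) :
    av F = av (fun v : G => av (fun y : Fin r → G => F (cfmX j e v y))) := by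
  unfold av
  have h1 : (∑ x : Fin (r + 1) → G, F x) = ∑ v : G, ∑ y : Fin r → G, F (cfmX j e v y) := by
    rw [← Fintype.sum_equiv (cfmE j e) (fun p => F (cfmX j e p.1 p.2)) F
      (fun p => by rw [← cfmE_apply]), Fintype.sum_prod_type]
  have h2 : (Fintype.card (Fin (r + 1) → G) : ℝ) =
      (Fintype.card (Fin r → G) : ℝ) * (Fintype.card G : ℝ) := by
    rw [Fintype.card_fun, Fintype.card_fun, Fintype.card_fin, Fintype.card_fin]
    push_cast
    ring
  rw [h1, h2, ← Finset.sum_div, div_div]

private theorem cfm_prod {r : ℕ} (j : Fin (r + 1)) (f : Fin (r + 1) → ℝ) :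
    ∏ i ∈ univ.erase j, f i = ∏ a : Fin r, f (j.succAbove a) := by
  have h1 : (univ.erase j : Finset (Fin (r + 1))) = univ.image j.succAbove := by
    ext i
    simp only [Finset.mem_erase, Finset.mem_univ, and_true, Finset.mem_image, true_and]
    constructor
    · intro h
      exact Fin.exists_succAbove_eq h
    · rintro ⟨a, rfl⟩
      exact Fin.succAbove_ne j a
  rw [h1, Finset.prod_image]
  intro a _ b _ hab
  exact Fin.succAbove_right_injective hab

private theorem cfm_frm {r : ℕ} {G : Type} [AddCommGroup G] (j : Fin (r + 1))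
    (x : Fin (r + 1) → G) :
    frm j x = ∑ a : Fin r,
      ((((j.succAbove a : Fin (r + 1)) : ℕ) : ℤ) - ((j : ℕ) : ℤ)) • x (j.succAbove a) := by
  unfold frm
  rw [Fin.sum_univ_succAbove _ j]
  simp

private theorem cfm_const {G : Type} [Fintype G] [Nonempty G] (t : ℝ) :
    av (fun _ : G => t) = t := by
  unfold av
  have h : (Fintype.card G : ℝ) ≠ 0 := by
    exact_mod_cast Fintype.card_ne_zero
  simp [h]

private theorem cfm_abs {G : Type} [Fintype G] [Nonempty G] (g : G → ℝ) (τ : ℝ)
    (h : ∀ v, |g v| ≤ τ) : |av g| ≤ τ := by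
  unfold av
  have h0 : (0 : ℝ) < (Fintype.card G : ℝ) := by
    exact_mod_cast Fintype.card_pos
  rw [abs_div, abs_of_pos h0, div_le_iff₀ h0]
  calc |∑ x, g x| ≤ ∑ x, |g x| := Finset.abs_sum_le_sum_abs _ _
    _ ≤ ∑ _x : G, τ := Finset.sum_le_sum fun x _ => h x
    _ = τ * (Fintype.card G : ℝ) := by
        rw [Finset.sum_const, Finset.card_univ, nsmul_eq_mul, mul_comm]

theorem pCfm : CfmStmt := by
  intro r G _ _ u τ j hinj
  have : Nonempty G := ⟨0⟩
  let e : Fin r → G ≃ G := fun a => Equiv.ofBijective _ (cfm_bij hinj j a)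
  have he : ∀ (a : Fin r) (x : G), e a x =
      ((((j.succAbove a : Fin (r + 1)) : ℕ) : ℤ) - ((j : ℕ) : ℤ)) • x := fun a x => rfl
  have hX1 : ∀ (v : G) (y : Fin r → G) (a : Fin r),
      cfmX j e v y (j.succAbove a) = (e a).symm (y a) := by
    intro v y a
    unfold cfmX
    rw [Fin.insertNth_apply_succAbove]
  have hX2 : ∀ (v : G) (y : Fin r → G), cfmX j e v y j = v := by
    intro v y
    unfold cfmX
    rw [Fin.insertNth_apply_same]
  have hfrm : ∀ (v : G) (y : Fin r → G), frm j (cfmX j e v y) = ∑ a, y a := by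
    intro v y
    rw [cfm_frm]
    refine Finset.sum_congr rfl fun a _ => ?_
    rw [← he, hX1, Equiv.apply_symm_apply]
  constructor
  · intro hC h hh
    rw [cfm_av j e]
    refine cfm_abs _ τ fun v => ?_
    have h1 := hC (fun a y => h (j.succAbove a) (cfmX j e v y)) (by
      intro a
      refine ⟨?_, fun y => (hh _ (Fin.succAbove_ne j a)).2 _⟩
      intro y w
      have h2 : cfmX j e v (Function.update y a w) =
          Function.update (cfmX j e v y) (j.succAbove a) ((e a).symm w) := by
        funext i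
        rcases eq_or_ne i j with rfl | hi
        · rw [hX2, Function.update_of_ne (Fin.succAbove_ne i a).symm, hX2]
        · obtain ⟨b, rfl⟩ := Fin.exists_succAbove_eq hi
          rw [hX1]
          rcases eq_or_ne b a with rfl | hb
          · rw [Function.update_self, Function.update_self]
          · rw [Function.update_of_ne hb, Function.update_of_ne, hX1]
            exact fun hba => hb (Fin.succAbove_right_injective hba)
      show h (j.succAbove a) (cfmX j e v (Function.update y a w)) = h (j.succAbove a) (cfmX j e v y)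
      rw [h2]
      exact (hh _ (Fin.succAbove_ne j a)).1 _ _)
    have h3 : (fun y : Fin r → G => u (frm j (cfmX j e v y)) *
        ∏ i ∈ univ.erase j, h i (cfmX j e v y)) =
        (fun y : Fin r → G => u (∑ i, y i) * ∏ a, h (j.succAbove a) (cfmX j e v y)) := by
      funext y
      rw [hfrm, cfm_prod]
    show |av (fun y : Fin r → G => u (frm j (cfmX j e v y)) *
        ∏ i ∈ univ.erase j, h i (cfmX j e v y))| ≤ τ
    rw [h3]
    exact h1
  · intro hC h hh
    let Y : (Fin (r + 1) → G) → (Fin r → G) := fun x a => e a (x (j.succAbove a))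
    let H : Fin (r + 1) → (Fin (r + 1) → G) → ℝ :=
      Fin.insertNth (α := fun _ => (Fin (r + 1) → G) → ℝ) j (fun _ => 0) (fun a x => h a (Y x))
    have hH : ∀ (a : Fin r), H (j.succAbove a) = fun x => h a (Y x) := by
      intro a
      exact Fin.insertNth_apply_succAbove (α := fun _ => (Fin (r + 1) → G) → ℝ) j _ _ a
    have hY : ∀ (v : G) (y : Fin r → G), Y (cfmX j e v y) = y := by
      intro v y
      funext a
      show e a (cfmX j e v y (j.succAbove a)) = y a
      rw [hX1, Equiv.apply_symm_apply]
    have h1 := hC H (by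
      intro i hi
      obtain ⟨a, rfl⟩ := Fin.exists_succAbove_eq hi
      rw [hH a]
      refine ⟨?_, fun x => (hh a).2 _⟩
      intro x w
      have h2 : Y (Function.update x (j.succAbove a) w) = Function.update (Y x) a (e a w) := by
        funext b
        show e b (Function.update x (j.succAbove a) w (j.succAbove b)) = _
        rcases eq_or_ne b a with rfl | hb
        · rw [Function.update_self, Function.update_self]
        · rw [Function.update_of_ne hb, Function.update_of_ne]
          exact fun hba => hb (Fin.succAbove_right_injective hba)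
      show h a (Y (Function.update x (j.succAbove a) w)) = h a (Y x)
      rw [h2]
      exact (hh a).1 _ _)
    rw [cfm_av j e] at h1
    have h3 : ∀ v : G, av (fun y : Fin r → G => u (frm j (cfmX j e v y)) *
        ∏ i ∈ univ.erase j, H i (cfmX j e v y)) =
        av (fun y : Fin r → G => u (∑ i, y i) * ∏ a, h a y) := by
      intro v
      congr 1
      funext y
      rw [hfrm, cfm_prod]
      congr 1
      refine Finset.prod_congr rfl fun a _ => ?_
      rw [hH a]
      show h a (Y (cfmX j e v y)) = h a y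
      rw [hY]
    have h4 : (fun v : G => av (fun y : Fin r → G => u (frm j (cfmX j e v y)) *
        ∏ i ∈ univ.erase j, H i (cfmX j e v y))) =
        fun _ : G => av (fun y : Fin r → G => u (∑ i, y i) * ∏ a, h a y) := funext h3
    have h5 : |av (fun v : G => av (fun y : Fin r → G => u (frm j (cfmX j e v y)) *
        ∏ i ∈ univ.erase j, H i (cfmX j e v y)))| ≤ τ := h1
    rw [h4, cfm_const] at h5
    exact h5

end Pool.Agent.Lib.MP_9f2731_nt.GP.Rel
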