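import Pool.Agent.Lib.MP_9f2731_nt.GP.Rel.Spec

/-!
MP_9f2731_nt, GP/Rel, module Cl (helper63): the relative counting lemma.
-/

namespace Pool.Agent.Lib.MP_9f2731_nt.GP.Rel

open Finset

/-- **Cl** -/
theorem pCl (h1 : Cl0Stmt) (h2 : Cl1Stmt) : ClStmt := by
  intro k ε hε
  have h3 : ∀ n, ClN k n := by
    intro n
    induction n with
    | zero => exact h1 k
    | succ n ih => exact h2 k n ih
  obtain ⟨η, τ, hη, hτ, h4⟩ := h3 k ε hε
  refine ⟨η, τ, hη, hτ, ?_⟩
  intro V _ _ ν g g' hI hg hg' hL hC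
  exact h4 V ν g g' univ (by simp) hI (fun j x => (hg j x).1.trans (hg j x).2)
    (fun j x => (hg j x).1) (fun j _ x => (hg j x).2) (fun j hj => absurd (mem_univ j) hj) hg' hL hC

end Pool.Agent.Lib.MP_9f2731_nt.GP.Rel
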