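import Pool.Agent.Lib.MP_9f2731_nt.GP.Rel.Spec

/-!
MP_9f2731_nt, GP/Rel, module Cl0 (helper6): the counting lemma for bounded functions.
-/

namespace Pool.Agent.Lib.MP_9f2731_nt.GP.Rel

open Finset

private theorem av_sub {α : Type} [Fintype α] (f g : α → ℝ) :
    av (fun x => f x - g x) = av f - av g := by
  unfold av
  rw [Finset.sum_sub_distrib, sub_div]

private theorem av_sum {α κ : Type} [Fintype α] (s : Finset κ) (f : κ → α → ℝ) :
    av (fun x => ∑ i ∈ s, f i x) = ∑ i ∈ s, av (f i) := by
  unfold av
  rw [Finset.sum_comm, Finset.sum_div]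

theorem pCl0 : Cl0Stmt := by
  classical
  intro k ε hε
  have hk : (0 : ℝ) < (k : ℝ) + 1 := by positivity
  refine ⟨1, ε / (k + 1), one_pos, div_pos hε hk, ?_⟩
  intro V _ _ ν g g' D hD hInd _ hg hgν hg1 hg' _ hCut
  have hD0 : D = ∅ := Finset.card_eq_zero.1 (Nat.le_zero.1 hD)
  subst hD0
  have hg1' : ∀ j x, g j x ≤ 1 := fun j => hg1 j (Finset.notMem_empty j)
  -- telescoping
  have tel : ∀ x : Fin k → V, (∏ j, g j x) - ∏ j, g' j x =
      ∑ i, (g i x - g' i x) * ∏ m ∈ univ.erase i, (if m < i then g m x else g' m x) := by
    intro x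
    have h := Finset.prod_add_ordered (univ : Finset (Fin k)) (fun j => g' j x)
      (fun j => g j x - g' j x)
    have e1 : ∀ j, g' j x + (g j x - g' j x) = g j x := fun j => by ring
    simp only [e1] at h
    rw [h, add_sub_cancel_left]
    refine Finset.sum_congr rfl fun i _ => ?_
    rw [mul_assoc]
    congr 1
    have e2 : (univ : Finset (Fin k)).erase i =
        (univ.filter fun m => m < i) ∪ (univ.filter fun m => i < m) := by
      ext m
      simp only [Finset.mem_erase, Finset.mem_univ, and_true, Finset.mem_union, Finset.mem_filter,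
        true_and]
      exact ne_iff_lt_or_gt
    have e3 : Disjoint (univ.filter fun m => m < i) (univ.filter fun m => i < m) := by
      rw [Finset.disjoint_left]
      intro m h1 h2
      simp only [Finset.mem_filter, Finset.mem_univ, true_and] at h1 h2
      exact absurd h1 (not_lt.2 h2.le)
    rw [e2, Finset.prod_union e3]
    congr 1
    · refine Finset.prod_congr rfl fun m hm => ?_
      rw [if_pos (Finset.mem_filter.1 hm).2]
    · refine Finset.prod_congr rfl fun m hm => ?_
      rw [if_neg (not_lt.2 (Finset.mem_filter.1 hm).2.le)]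
  rw [← av_sub]
  simp only [tel]
  rw [av_sum]
  have hterm : ∀ i : Fin k, |av (fun x => (g i x - g' i x) *
      ∏ m ∈ univ.erase i, (if m < i then g m x else g' m x))| ≤ ε / (k + 1) := by
    intro i
    refine hCut i (fun m x => if m < i then g m x else g' m x) ?_
    intro m _
    constructor
    · intro x v
      by_cases hm : m < i
      · simp only [hm, if_true]
        exact (hInd m).2.1 x v
      · simp only [hm, if_false]
        exact (hInd m).2.2 x v
    · intro x
      by_cases hm : m < i
      · simp only [hm, if_true]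
        exact ⟨hg m x, hg1' m x⟩
      · simp only [hm, if_false]
        exact hg' m x
  refine (Finset.abs_sum_le_sum_abs _ _).trans ((Finset.sum_le_sum fun i _ => hterm i).trans ?_)
  rw [Finset.sum_const, Finset.card_univ, Fintype.card_fin, nsmul_eq_mul, ← mul_div_assoc,
    div_le_iff₀ hk]
  nlinarith

end Pool.Agent.Lib.MP_9f2731_nt.GP.Rel
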