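import Pool.Agent.Lib.MP_9f2731_nt.GP.Rel.Spec

/-!
MP_9f2731_nt, GP/Rel, module Cl1 (helper59): the induction step of the relative counting lemma.
-/

set_option autoImplicit false

namespace Pool.Agent.Lib.MP_9f2731_nt.GP.Rel

open Finset

private theorem Cl1_add {α : Type} [Fintype α] (f g : α → ℝ) :
    av (fun x => f x + g x) = av f + av g := by
  unfold av
  rw [sum_add_distrib, add_div]

private theorem Cl1_sub {α : Type} [Fintype α] (f g : α → ℝ) :
    av (fun x => f x - g x) = av f - av g := by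
  unfold av
  rw [sum_sub_distrib, sub_div]

private theorem Cl1_smul {α : Type} [Fintype α] (c : ℝ) (f : α → ℝ) :
    av (fun x => c * f x) = c * av f := by
  unfold av
  rw [← mul_sum, mul_div_assoc]

private theorem Cl1_mono {α : Type} [Fintype α] (f g : α → ℝ) (h : ∀ x, f x ≤ g x) :
    av f ≤ av g := by
  unfold av
  exact div_le_div_of_nonneg_right (sum_le_sum fun x _ => h x) (Nat.cast_nonneg _)

private theorem Cl1_nonneg {α : Type} [Fintype α] (f : α → ℝ) (h : ∀ x, 0 ≤ f x) : 0 ≤ av f := by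
  unfold av
  exact div_nonneg (sum_nonneg fun x _ => h x) (Nat.cast_nonneg _)

private theorem Cl1_const {α : Type} [Fintype α] [Nonempty α] (c : ℝ) :
    av (fun _ : α => c) = c := by
  unfold av
  rw [sum_const, card_univ, nsmul_eq_mul]
  have : (Fintype.card α : ℝ) ≠ 0 := Nat.cast_ne_zero.2 Fintype.card_ne_zero
  field_simp

private theorem Cl1_abs {α : Type} [Fintype α] (f : α → ℝ) : |av f| ≤ av (fun x => |f x|) := by
  unfold av
  rw [abs_div, abs_of_nonneg (Nat.cast_nonneg (Fintype.card α) : (0 : ℝ) ≤ _)]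
  exact div_le_div_of_nonneg_right (abs_sum_le_sum_abs _ _) (Nat.cast_nonneg _)

private theorem Cl1_cs {α : Type} [Fintype α] (P H : α → ℝ) (h : ∀ x, 0 ≤ P x) :
    (av (fun x => P x * H x)) ^ 2 ≤ av P * av (fun x => P x * H x ^ 2) := by
  unfold av
  rw [div_pow, div_mul_div_comm, ← sq]
  refine div_le_div_of_nonneg_right ?_ (sq_nonneg _)
  exact sum_sq_le_sum_mul_sum_of_sq_eq_mul _ (fun x _ => h x)
    (fun x _ => mul_nonneg (h x) (sq_nonneg _)) (fun x _ => by ring)

/-- The estimate for the averages, without the combinatorics. -/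
private theorem Cl1_pure {α : Type} [Fintype α] [Nonempty α] (N g T T' Tn : α → ℝ) (e ε : ℝ)
    (he : 0 < e) (he1 : e ≤ 1) (hε : 0 < ε) (heε : 96 * e ≤ ε ^ 2)
    (hg : ∀ x, 0 ≤ g x ∧ g x ≤ N x) (hT : ∀ x, 0 ≤ T x ∧ T x ≤ Tn x)
    (hT' : ∀ x, 0 ≤ T' x ∧ T' x ≤ 1)
    (hv : av (fun x => (Tn x - 1) ^ 2) ≤ e ^ 2 / 4) (hN : av N ≤ 2)
    (a1 : |av (fun x => (N x - 1) * (T x * T x))| ≤ e)
    (a2 : |av (fun x => (N x - 1) * (T x * T' x))| ≤ e)
    (a3 : |av (fun x => (N x - 1) * (T' x * T' x))| ≤ e)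
    (b1 : |av (fun x => min (T x) 1 * T x) - av (fun x => min (T x) 1 * T' x)| ≤ e)
    (b2 : |av (fun x => T' x * T x) - av (fun x => T' x * T' x)| ≤ e) :
    |av (fun x => g x * (T x - T' x))| ≤ ε / 2 := by
  have hN0 : ∀ x, 0 ≤ N x := fun x => (hg x).1.trans (hg x).2
  have hD0 : ∀ x, 0 ≤ T x - min (T x) 1 := fun x => sub_nonneg.2 (min_le_left _ _)
  have c1 : av (fun x => (T x - min (T x) 1) ^ 2) ≤ e ^ 2 / 4 := by
    refine (Cl1_mono _ _ fun x => ?_).trans hv
    rcases le_total (T x) 1 with h | h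
    · rw [min_eq_left h, sub_self]
      nlinarith [sq_nonneg (Tn x - 1)]
    · rw [min_eq_right h]
      have := (hT x).2
      nlinarith
  have c2 : av (fun x => T x - min (T x) 1) ≤ e := by
    have h1 := Cl1_cs (fun _ : α => (1 : ℝ)) (fun x => T x - min (T x) 1) (fun _ => zero_le_one)
    simp only [one_mul] at h1
    rw [Cl1_const, one_mul] at h1
    have h2 : (av (fun x => T x - min (T x) 1)) ^ 2 ≤ (e / 2) ^ 2 := by
      refine (h1.trans c1).trans (le_of_eq ?_)
      ring
    have h3 := (le_abs_self _).trans (abs_le_of_sq_le_sq h2 (by linarith))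
    linarith
  have c3 : av (fun x => (min (T x) 1 - T' x) ^ 2) ≤ 3 * e := by
    have h1 : av (fun x => (min (T x) 1 - T' x) ^ 2) ≤
        av (fun x => ((min (T x) 1 * T x - min (T x) 1 * T' x) -
          (T' x * T x - T' x * T' x)) + (T x - min (T x) 1)) := by
      refine Cl1_mono _ _ fun x => ?_
      have h2 := hD0 x
      have h3 : min (T x) 1 ≤ 1 := min_le_right _ _
      have h4 : 0 ≤ min (T x) 1 := le_min (hT x).1 zero_le_one
      obtain ⟨h5, h6⟩ := hT' x
      nlinarith [mul_nonneg h2 (by linarith : (0 : ℝ) ≤ 1 + (min (T x) 1 - T' x))]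
    rw [Cl1_add, Cl1_sub, Cl1_sub, Cl1_sub] at h1
    have h2 := (abs_le.1 b1).2
    have h3 := (abs_le.1 b2).1
    linarith
  have c4 : av (fun x => (T x - T' x) ^ 2) ≤ 8 * e := by
    have h1 : av (fun x => (T x - T' x) ^ 2) ≤
        av (fun x => 2 * (T x - min (T x) 1) ^ 2 + 2 * (min (T x) 1 - T' x) ^ 2) := by
      refine Cl1_mono _ _ fun x => ?_
      nlinarith [sq_nonneg ((T x - min (T x) 1) - (min (T x) 1 - T' x))]
    rw [Cl1_add, Cl1_smul, Cl1_smul] at h1
    nlinarith
  have c5 : av (fun x => N x * |T x - T' x| ^ 2) ≤ 12 * e := by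
    have h1 : av (fun x => N x * |T x - T' x| ^ 2) =
        av (fun x => ((N x - 1) * (T x * T x) - 2 * ((N x - 1) * (T x * T' x))) +
          (N x - 1) * (T' x * T' x) + (T x - T' x) ^ 2) := by
      refine congrArg av (funext fun x => ?_)
      rw [sq_abs]
      ring
    rw [h1, Cl1_add, Cl1_add, Cl1_sub, Cl1_smul]
    have h2 := (abs_le.1 a1).2
    have h3 := (abs_le.1 a2).1
    have h4 := (abs_le.1 a3).2
    linarith
  have c6 := Cl1_cs N (fun x => |T x - T' x|) hN0
  have c7 : 0 ≤ av (fun x => N x * |T x - T' x| ^ 2) :=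
    Cl1_nonneg _ fun x => mul_nonneg (hN0 x) (sq_nonneg _)
  have c8 : (av (fun x => N x * |T x - T' x|)) ^ 2 ≤ (ε / 2) ^ 2 := by
    have h1 : av N * av (fun x => N x * |T x - T' x| ^ 2) ≤ 2 * (12 * e) :=
      mul_le_mul hN c5 c7 (by norm_num)
    have h2 : 2 * (12 * e) ≤ (ε / 2) ^ 2 := by
      have : (ε / 2) ^ 2 = ε ^ 2 / 4 := by ring
      rw [this]
      linarith
    exact (c6.trans h1).trans h2
  have c9 := (le_abs_self _).trans (abs_le_of_sq_le_sq c8 (by linarith))
  refine ((Cl1_abs _).trans (Cl1_mono _ _ fun x => ?_)).trans c9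
  rw [abs_mul, abs_of_nonneg (hg x).1]
  exact mul_le_mul_of_nonneg_right (hg x).2 (abs_nonneg _)

private theorem Cl1_trInd {k : ℕ} {V : Type} [Fintype V] (j : Fin k) (E : Finset (Fin k))
    (g : Fin k → (Fin k → V) → ℝ) : Ind j (tr j E g) := by
  intro x v
  unfold tr
  simp only [Function.update_idem]

theorem pCl1 (h1 : StfStmt) (h2 : Pr2Stmt) (h3 : VarStmt) : Cl1Stmt := by
  classical
  intro k n hN ε hε
  obtain ⟨e, he, he1, heε', heε⟩ : ∃ e : ℝ, 0 < e ∧ e ≤ 1 ∧ e ≤ ε ∧ 96 * e ≤ ε ^ 2 := by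
    refine ⟨min 1 (min ε (ε ^ 2 / 96)), by positivity, min_le_left _ _,
      (min_le_right _ _).trans (min_le_left _ _), ?_⟩
    have := (min_le_right (1 : ℝ) (min ε (ε ^ 2 / 96))).trans (min_le_right _ _)
    linarith
  obtain ⟨η1, τ1, hη1, hτ1, hN⟩ := hN e he
  obtain ⟨η2, hη2, hS⟩ := h1 k e he
  refine ⟨min (min η1 η2) (min (e ^ 2 / 16) 1), min τ1 (ε / 2), by positivity, by positivity, ?_⟩
  intro V _ _ ν g g' D hD hInd hν0 hg0 hgD hgD' hg' hH hcut
  set η : ℝ := min (min η1 η2) (min (e ^ 2 / 16) 1) with hη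
  have hηpos : 0 < η := by positivity
  have hηa : η ≤ η1 := (min_le_left _ _).trans (min_le_left _ _)
  have hηb : η ≤ η2 := (min_le_left _ _).trans (min_le_right _ _)
  have hηc : η ≤ e ^ 2 / 16 := (min_le_right _ _).trans (min_le_left _ _)
  have hηd : η ≤ 1 := (min_le_right _ _).trans (min_le_right _ _)
  have hH1 : HLFC η1 ν := fun S hS' => (hH S hS').trans hηa
  have hH2 : HLFC η2 ν := fun S hS' => (hH S hS').trans hηb
  have hcut1 : ∀ j, Cut j τ1 (fun x => g j x - g' j x) :=
    fun j h hh => (hcut j h hh).trans (min_le_left _ _)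
  have hcut2 : ∀ j, Cut j (ε / 2) (fun x => g j x - g' j x) :=
    fun j h hh => (hcut j h hh).trans (min_le_right _ _)
  by_cases hcard : D.card ≤ n
  · exact (hN V ν g g' D hcard hInd hν0 hg0 hgD hgD' hg' hH1 hcut1).trans heε'
  have hDne : D.Nonempty := by
    rw [← card_pos]
    omega
  obtain ⟨j, hj⟩ := hDne
  have hcardE : (D.erase j).card ≤ n := by
    rw [card_erase_of_mem hj]
    omega
  -- products
  have hprod : ∀ (a : Fin k → (Fin k → V) → ℝ) (x : Fin k → V),
      ∏ i, a i x = a j x * ∏ i ∈ univ.erase j, a i x :=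
    fun a x => (mul_prod_erase univ (fun i => a i x) (mem_univ j)).symm
  have hupd : ∀ (a : Fin k → (Fin k → V) → ℝ) (w : (Fin k → V) → ℝ), Ind j w →
      av (fun x => ∏ i, Function.update a j w i x) = av (fun x => w x * tr j (univ.erase j) a x) := by
    intro a w hw
    rw [(h2 k V j (univ.erase j) ∅ a a w hw).1]
    refine congrArg av (funext fun x => ?_)
    rw [hprod, Function.update_self]
    refine congrArg _ (prod_congr rfl fun i hi => ?_)
    rw [Function.update_of_ne (ne_of_mem_erase hi)]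
  -- the traces
  have hTr0 : ∀ (a : Fin k → (Fin k → V) → ℝ) (E : Finset (Fin k)) (x : Fin k → V),
      (∀ i x, 0 ≤ a i x) → 0 ≤ tr j E a x := fun a E x ha =>
    Cl1_nonneg _ fun v => prod_nonneg fun i _ => ha i _
  have hT'1 : ∀ x, tr j (univ.erase j) g' x ≤ 1 := by
    intro x
    have h5 : tr j (univ.erase j) g' x ≤ av (fun _ : V => (1 : ℝ)) :=
      Cl1_mono _ _ fun v => prod_le_one (fun i _ => (hg' i _).1) (fun i _ => (hg' i _).2)
    rwa [Cl1_const] at h5
  have hTn : ∀ x, tr j (univ.erase j) g x ≤ tr j (D.erase j) ν x := by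
    intro x
    refine Cl1_mono _ _ fun v => ?_
    have hsub : D.erase j ⊆ univ.erase j := erase_subset_erase _ (subset_univ _)
    rw [← prod_sdiff hsub]
    have h5 : ∏ i ∈ univ.erase j \ D.erase j, g i (Function.update x j v) ≤ 1 := by
      refine prod_le_one (fun i _ => hg0 i _) (fun i hi => ?_)
      rw [mem_sdiff, mem_erase, mem_erase] at hi
      exact hgD' i (fun h => hi.2 ⟨hi.1.1, h⟩) _
    have h6 : ∏ i ∈ D.erase j, g i (Function.update x j v) ≤
        ∏ i ∈ D.erase j, ν i (Function.update x j v) :=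
      prod_le_prod (fun i _ => hg0 i _) (fun i hi => hgD i (mem_of_mem_erase hi) _)
    have h7 : 0 ≤ ∏ i ∈ D.erase j, g i (Function.update x j v) := prod_nonneg fun i _ => hg0 i _
    calc _ ≤ 1 * ∏ i ∈ D.erase j, g i (Function.update x j v) :=
          mul_le_mul_of_nonneg_right h5 h7
      _ ≤ ∏ i ∈ D.erase j, ν i (Function.update x j v) := by rw [one_mul]; exact h6
  -- part (A)
  have hA : ∀ a b : Fin k → (Fin k → V) → ℝ, (a = g ∨ a = g') → (b = g ∨ b = g') →
      |av (fun x => (ν j x - 1) * (tr j (univ.erase j) a x * tr j (univ.erase j) b x))| ≤ e := by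
    intro a b ha hb
    have hgood : ∀ c : Fin k → (Fin k → V) → ℝ, (c = g ∨ c = g') → ∀ i,
        Ind i (c i) ∧ (∀ x, 0 ≤ c i x) ∧ ((∀ x, c i x ≤ ν i x) ∨ ∀ x, c i x ≤ 1) := by
      intro c hc i
      rcases hc with rfl | rfl
      · refine ⟨(hInd i).2.1, hg0 i, ?_⟩
        by_cases hi : i ∈ D
        · exact Or.inl (hgD i hi)
        · exact Or.inr (hgD' i hi)
      · exact ⟨(hInd i).2.2, fun x => (hg' i x).1, Or.inr fun x => (hg' i x).2⟩
    have hw : Ind j (fun x => ν j x - 1) := fun x v => by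
      show ν j (Function.update x j v) - 1 = ν j x - 1
      rw [(hInd j).1 x v]
    rw [(h2 k V j (univ.erase j) (univ.erase j) a b (fun x => ν j x - 1) hw).2]
    have h5 := hS V ν a b j (fun i => ⟨(hInd i).1, hν0 i⟩) hH2 (fun i _ =>
      ⟨(hgood a ha i).1, (hgood b hb i).1, (hgood a ha i).2.1, (hgood b hb i).2.1,
        (hgood a ha i).2.2, (hgood b hb i).2.2⟩)
    simp only [prod_mul_distrib] at h5
    exact h5
  -- part (B)
  have hB : ∀ w : (Fin k → V) → ℝ, Ind j w → (∀ x, 0 ≤ w x ∧ w x ≤ 1) →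
      |av (fun x => w x * tr j (univ.erase j) g x) - av (fun x => w x * tr j (univ.erase j) g' x)| ≤
        e := by
    intro w hw hw01
    rw [← hupd g w hw, ← hupd g' w hw]
    refine hN V ν (Function.update g j w) (Function.update g' j w) (D.erase j) hcardE ?_ hν0 ?_ ?_ ?_
      ?_ hH1 ?_
    · intro i
      by_cases hi : i = j
      · subst hi
        rw [Function.update_self, Function.update_self]
        exact ⟨(hInd i).1, hw, hw⟩
      · rw [Function.update_of_ne hi, Function.update_of_ne hi]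
        exact hInd i
    · intro i x
      by_cases hi : i = j
      · subst hi
        rw [Function.update_self]
        exact (hw01 x).1
      · rw [Function.update_of_ne hi]
        exact hg0 i x
    · intro i hi x
      rw [Function.update_of_ne (ne_of_mem_erase hi)]
      exact hgD i (mem_of_mem_erase hi) x
    · intro i hi x
      by_cases hij : i = j
      · subst hij
        rw [Function.update_self]
        exact (hw01 x).2
      · rw [Function.update_of_ne hij]
        exact hgD' i (fun h => hi (mem_erase.2 ⟨hij, h⟩)) x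
    · intro i x
      by_cases hi : i = j
      · subst hi
        rw [Function.update_self]
        exact hw01 x
      · rw [Function.update_of_ne hi]
        exact hg' i x
    · intro i h hh
      by_cases hi : i = j
      · subst hi
        simp only [Function.update_self, sub_self, zero_mul]
        have : av (fun _ : Fin k → V => (0 : ℝ)) = 0 := Cl1_const 0
        rw [this, abs_zero]
        exact hτ1.le
      · simp only [Function.update_of_ne hi]
        exact hcut1 i h hh
  -- the variance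
  obtain ⟨v1, v2⟩ := h3 k V η ν j (D.erase j) hηpos.le (notMem_erase j D) hH
  have hT1Ind : Ind j (fun x => min (tr j (univ.erase j) g x) 1) := fun x v => by
    show min (tr j (univ.erase j) g (Function.update x j v)) 1 = min (tr j (univ.erase j) g x) 1
    rw [Cl1_trInd j (univ.erase j) g x v]
  have hmain : |av (fun x => g j x * (tr j (univ.erase j) g x - tr j (univ.erase j) g' x))| ≤
      ε / 2 :=
    Cl1_pure (ν j) (g j) (tr j (univ.erase j) g) (tr j (univ.erase j) g') (tr j (D.erase j) ν) e ε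
      he he1 hε heε (fun x => ⟨hg0 j x, hgD j hj x⟩)
      (fun x => ⟨hTr0 g _ x hg0, hTn x⟩)
      (fun x => ⟨hTr0 g' _ x fun i x => (hg' i x).1, hT'1 x⟩)
      (v1.trans (by linarith)) (v2.trans (by linarith))
      (hA g g (Or.inl rfl) (Or.inl rfl)) (hA g g' (Or.inl rfl) (Or.inr rfl))
      (hA g' g' (Or.inr rfl) (Or.inr rfl))
      (hB _ hT1Ind fun x => ⟨le_min (hTr0 g _ x hg0) zero_le_one, min_le_right _ _⟩)
      (hB _ (Cl1_trInd j _ g') fun x => ⟨hTr0 g' _ x fun i x => (hg' i x).1, hT'1 x⟩)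
  have hlast : |av (fun x => (g j x - g' j x) * tr j (univ.erase j) g' x)| ≤ ε / 2 := by
    have hw : Ind j (fun x => g j x - g' j x) := fun x v => by
      show g j (Function.update x j v) - g' j (Function.update x j v) = g j x - g' j x
      rw [(hInd j).2.1 x v, (hInd j).2.2 x v]
    rw [(h2 k V j (univ.erase j) ∅ g' g' (fun x => g j x - g' j x) hw).1]
    exact hcut2 j g' fun i _ => ⟨(hInd i).2.2, hg' i⟩
  have e1 : av (fun x => ∏ i, g i x) = av (fun x => g j x * tr j (univ.erase j) g x) := by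
    rw [(h2 k V j (univ.erase j) ∅ g g (g j) (hInd j).2.1).1]
    exact congrArg av (funext fun x => hprod g x)
  have e2 : av (fun x => ∏ i, g' i x) = av (fun x => g' j x * tr j (univ.erase j) g' x) := by
    rw [(h2 k V j (univ.erase j) ∅ g' g' (g' j) (hInd j).2.2).1]
    exact congrArg av (funext fun x => hprod g' x)
  have e3 : av (fun x => ∏ i, g i x) - av (fun x => ∏ i, g' i x) =
      av (fun x => g j x * (tr j (univ.erase j) g x - tr j (univ.erase j) g' x)) +
        av (fun x => (g j x - g' j x) * tr j (univ.erase j) g' x) := by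
    rw [e1, e2, ← Cl1_sub, ← Cl1_add]
    exact congrArg av (funext fun x => by ring)
  rw [e3]
  refine (abs_add_le _ _).trans ?_
  linarith

end Pool.Agent.Lib.MP_9f2731_nt.GP.Rel
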