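import Pool.Agent.Lib.MP_9f2731_nt.GP.Rel.Spec

/-!
MP_9f2731_nt, GP/Rel, module Cs1 (helper6): Cauchy-Schwarz in one variable.
-/

namespace Pool.Agent.Lib.MP_9f2731_nt.GP.Rel

open Finset

private theorem av_mul_left {α : Type} [Fintype α] (c : ℝ) (g : α → ℝ) :
    av (fun x => c * g x) = c * av g := by
  unfold av
  rw [← Finset.mul_sum, mul_div_assoc]

private theorem av_mono {α : Type} [Fintype α] {f g : α → ℝ} (h : ∀ x, f x ≤ g x) :
    av f ≤ av g := by
  unfold av
  exact div_le_div_of_nonneg_right (Finset.sum_le_sum fun x _ => h x) (by positivity)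

private theorem av_nonneg {α : Type} [Fintype α] {f : α → ℝ} (h : ∀ x, 0 ≤ f x) : 0 ≤ av f := by
  unfold av
  exact div_nonneg (Finset.sum_nonneg fun x _ => h x) (by positivity)

private theorem av_cs {α : Type} [Fintype α] {P h : α → ℝ} (hP : ∀ x, 0 ≤ P x) :
    (av (fun x => P x * h x)) ^ 2 ≤ av P * av (fun x => P x * (h x) ^ 2) := by
  unfold av
  have h1 := Finset.sum_mul_sq_le_sq_mul_sq Finset.univ (fun x => Real.sqrt (P x))
    (fun x => Real.sqrt (P x) * h x)
  have e1 : ∀ x, Real.sqrt (P x) * (Real.sqrt (P x) * h x) = P x * h x := by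
    intro x
    rw [← mul_assoc, Real.mul_self_sqrt (hP x)]
  have e2 : ∀ x, Real.sqrt (P x) ^ 2 = P x := fun x => Real.sq_sqrt (hP x)
  have e3 : ∀ x, (Real.sqrt (P x) * h x) ^ 2 = P x * (h x) ^ 2 := by
    intro x
    rw [mul_pow, e2]
  simp only [e1, e2, e3] at h1
  rw [div_pow, div_mul_div_comm, ← sq]
  exact div_le_div_of_nonneg_right h1 (by positivity)

theorem pCs1 (h1 : UpdStmt) : Cs1Stmt := by
  intro ι V _ _ _ _ a b P H Γ hab haP hbP haΓ hbΓ hbH hP
  set h : (ι → V) → ℝ := fun x => av (fun v : V => H (Function.update x a v)) with hh
  have hP0 : ∀ x, 0 ≤ P x := fun x => (hP x).1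
  have hΓ0 : ∀ x, 0 ≤ Γ x := fun x => (hP x).1.trans (hP x).2
  have hha : ∀ x v, h (Function.update x a v) = h x := by
    intro x v
    simp only [hh, Function.update_idem]
  have e1 : av (fun x => P x * H x) = av (fun x => P x * h x) := by
    rw [← h1 ι V a (fun x => P x * H x)]
    congr 1
    funext x
    simp only [haP x, av_mul_left, hh]
  have e2 : av (fun x => Γ x * (H x * H (fun i => x (Equiv.swap a b i)))) =
      av (fun x => Γ x * (h x) ^ 2) := by
    rw [← h1 ι V b (fun x => Γ x * (H x * H (fun i => x (Equiv.swap a b i))))]
    have e3 : ∀ x : ι → V, av (fun v : V => Γ (Function.update x b v) *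
        (H (Function.update x b v) *
          H (fun i => (Function.update x b v) (Equiv.swap a b i)))) =
        Γ x * (H x * h x) := by
      intro x
      simp only [hbΓ x, hbH x]
      have e4 : ∀ v : V, H (fun i => (Function.update x b v) (Equiv.swap a b i)) =
          H (Function.update x a v) := by
        intro v
        have e5 : (fun i => (Function.update x b v) (Equiv.swap a b i)) =
            Function.update (Function.update x a v) b (x a) := by
          funext i
          by_cases hib : i = b
          · subst hib
            rw [Equiv.swap_apply_right, Function.update_self, Function.update_of_ne hab]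
          · by_cases hia : i = a
            · subst hia
              rw [Equiv.swap_apply_left, Function.update_self, Function.update_of_ne hib,
                Function.update_self]
            · rw [Equiv.swap_apply_of_ne_of_ne hia hib, Function.update_of_ne hib,
                Function.update_of_ne hib, Function.update_of_ne hia]
        rw [e5, hbH]
      simp only [e4]
      rw [av_mul_left, av_mul_left]
    simp only [e3]
    rw [← h1 ι V a (fun x => Γ x * (H x * h x))]
    congr 1
    funext x
    simp only [haΓ x, hha x]
    rw [av_mul_left]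
    have e6 : av (fun v : V => H (Function.update x a v) * h x) = h x * h x := by
      have : (fun v : V => H (Function.update x a v) * h x) =
          fun v : V => h x * H (Function.update x a v) := by
        funext v
        ring
      rw [this, av_mul_left]
    rw [e6]
    ring
  rw [e1, e2]
  refine (av_cs hP0).trans ?_
  refine mul_le_mul (av_mono fun x => (hP x).2) (av_mono fun x => ?_)
    (av_nonneg fun x => mul_nonneg (hP0 x) (sq_nonneg _)) (av_nonneg hΓ0)
  exact mul_le_mul_of_nonneg_right (hP x).2 (sq_nonneg _)

end Pool.Agent.Lib.MP_9f2731_nt.GP.Rel
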