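import Pool.Agent.Lib.MP_9f2731_nt.GP.Rel.Spec

/-!
MP_9f2731_nt, GP/Rel/Fnl: the relative Szemeredi theorem (assembly).
-/

namespace Pool.Agent.Lib.MP_9f2731_nt.GP.Rel

open Finset

/-- `frm j` does not depend on the vertex `j`. -/
private theorem fnl_frm {G : Type} [AddCommGroup G] {k : ℕ} (j : Fin k) (x : Fin k → G) (v : G) :
    frm j (Function.update x j v) = frm j x := by
  unfold frm
  refine Finset.sum_congr rfl ?_
  intro i _
  by_cases h : i = j
  · subst h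
    simp
  · rw [Function.update_of_ne h]

/-- The functions `f ∘ frm j` are independent of the vertex `j`. -/
private theorem fnl_ind {G : Type} [AddCommGroup G] {k : ℕ} (j : Fin k) (f : G → ℝ) :
    Ind j (fun x : Fin k → G => f (frm j x)) := by
  intro x v
  show f (frm j (Function.update x j v)) = f (frm j x)
  rw [fnl_frm]

/-- The linear forms condition in the group gives the one for the hypergraph. -/
private theorem fnl_hlfc {G : Type} [AddCommGroup G] [Fintype G] {k : ℕ} {η : ℝ} {ν : G → ℝ}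
    (h : LFC k η ν) : HLFC η (fun (j : Fin k) (x : Fin k → G) => ν (frm j x)) := by
  intro S hS
  have h1 := h S hS
  have h2 : (Fintype.card (Fin k × Bool → G) : ℝ) = (Fintype.card G : ℝ) ^ (2 * k) := by
    rw [Fintype.card_fun]
    push_cast
    congr 1
    simp [Fintype.card_prod, mul_comm]
  have h3 : av (fun x : Fin k × Bool → G => ∏ p ∈ S,
      (fun (j : Fin k) (x : Fin k → G) => ν (frm j x)) p.1 (pk p.2 x)) =
      (∑ x : Fin k × Bool → G, ∏ p ∈ S, ν (frm p.1 (fun i => x (i, p.2 i)))) /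
      (Fintype.card G : ℝ) ^ (2 * k) := by
    unfold av
    rw [h2]
    rfl
  rw [h3]
  exact h1

/-- The mean of a function with small cut norm. -/
private theorem fnl_av (h7 : PhiStmt) {G : Type} [AddCommGroup G] [Fintype G] {r : ℕ} (hr : 1 ≤ r)
    {τ : ℝ} {u : G → ℝ} (h : CutG r τ u) : |av u| ≤ τ := by
  obtain ⟨-, h1, h2⟩ := h7 G r hr
  have h3 := h2 (fun (_ : Fin r) (_ : Fin r → G) => (1 : ℝ)) u
  have h4 := h (fun (_ : Fin r) (_ : Fin r → G) => (1 : ℝ)) (fun i =>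
    ⟨fun x v => rfl, fun x => ⟨zero_le_one, le_rfl⟩⟩)
  rw [← h3] at h4
  have h5 : (fun x => u x * phi (fun (_ : Fin r) (_ : Fin r → G) => (1 : ℝ)) x) = u := by
    funext x
    rw [h1 x, mul_one]
  rw [h5] at h4
  exact h4

theorem pFnl (h1 : DnsStmt) (h2 : ClStmt) (h3 : DmtStmt) (h4 : NucStmt) (h5 : CfmStmt)
    (h6 : CfgStmt) (h7 : PhiStmt) : FnlStmt := by
  intro k δ hk hδ
  obtain ⟨r, rfl⟩ : ∃ r, k = r + 1 := ⟨k - 1, by omega⟩
  obtain ⟨c0, n1, hc0, hD⟩ := h1 (r + 1) (δ / 2) (by omega) (by positivity)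
  obtain ⟨η1, τ1, hη1, hτ1, hCl⟩ := h2 (r + 1) (c0 / 2) (by positivity)
  obtain ⟨τ2, hτ2, hDm⟩ := h3 r (min τ1 (δ / 2)) (by omega) (lt_min hτ1 (by positivity))
  obtain ⟨η2, hη2, hN⟩ := h4 r τ2 hτ2
  refine ⟨c0 / 2, min η1 η2, max n1 (r + 1), by positivity, lt_min hη1 hη2, ?_⟩
  intro G _ _ hinj ν f hf0 hfν hL hsum
  have : Nonempty G := ⟨0⟩
  have hcard : (0 : ℝ) < (Fintype.card G : ℝ) := by
    exact_mod_cast Fintype.card_pos
  have hinjr : ∀ n : ℕ, 1 ≤ n → n ≤ r → Function.Injective (fun x : G => n • x) := by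
    intro n hn1 hn2
    exact hinj n hn1 (le_trans (by omega) (le_max_right _ _))
  have hinj1 : ∀ n : ℕ, 1 ≤ n → n ≤ n1 → Function.Injective (fun x : G => n • x) := by
    intro n hn1 hn2
    exact hinj n hn1 (le_trans hn2 (le_max_left _ _))
  have hL1 : LFC (r + 1) η1 ν := fun S hS => (hL S hS).trans (min_le_left _ _)
  have hL2 : LFC (r + 1) η2 ν := fun S hS => (hL S hS).trans (min_le_right _ _)
  obtain ⟨f', hf', hC⟩ := hDm G ν f (fun x => ⟨hf0 x, hfν x⟩) (hN G ν hinjr hL2)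
  have hav := (fnl_av h7 (by omega) hC).trans (min_le_right _ _)
  have hsum' : δ / 2 * (Fintype.card G : ℝ) ≤ ∑ x, f' x := by
    have e1 : av (fun x => f x - f' x) = ((∑ x, f x) - ∑ x, f' x) / (Fintype.card G : ℝ) := by
      unfold av
      rw [Finset.sum_sub_distrib]
    rw [e1] at hav
    have e2 := (abs_le.1 hav).2
    rw [div_le_iff₀ hcard] at e2
    linarith
  have hcount := hD G hinj1 f' hf' hsum'
  have hcut : ∀ j : Fin (r + 1), Cut j τ1 (fun x : Fin (r + 1) → G =>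
      f (frm j x) - f' (frm j x)) := by
    intro j h hh
    have e1 := (h5 r G (fun x => f x - f' x) (min τ1 (δ / 2)) j hinjr).1 hC
    exact (e1 h hh).trans (min_le_left _ _)
  have hmain := hCl G (fun (j : Fin (r + 1)) (x : Fin (r + 1) → G) => ν (frm j x))
    (fun (j : Fin (r + 1)) (x : Fin (r + 1) → G) => f (frm j x))
    (fun (j : Fin (r + 1)) (x : Fin (r + 1) → G) => f' (frm j x))
    (fun j => ⟨fnl_ind j ν, fnl_ind j f, fnl_ind j f'⟩)
    (fun j x => ⟨hf0 _, hfν _⟩) (fun j x => hf' _) (fnl_hlfc hL1) hcut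
  have e1 := h6 (r + 1) G f (by omega)
  have e2 := h6 (r + 1) G f' (by omega)
  have e3 : |(∑ x : G, ∑ d : G, ∏ j : Fin (r + 1), f (x + (j : ℕ) • d)) /
      (Fintype.card G : ℝ) ^ 2 - (∑ x : G, ∑ d : G, ∏ j : Fin (r + 1), f' (x + (j : ℕ) • d)) /
      (Fintype.card G : ℝ) ^ 2| ≤ c0 / 2 := by
    rw [← e1, ← e2]
    exact hmain
  have hcard2 : (0 : ℝ) < (Fintype.card G : ℝ) ^ 2 := by positivity
  have e4 := (abs_le.1 e3).1
  rw [← sub_div, le_div_iff₀ hcard2] at e4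
  linarith

end Pool.Agent.Lib.MP_9f2731_nt.GP.Rel
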