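import Pool.Agent.Lib.MP_9f2731_nt.GP.Rel.Spec

/-!
MP_9f2731_nt, GP/Rel, module Gcs (helper6): the weighted Gowers-Cauchy-Schwarz inequality.
-/

namespace Pool.Agent.Lib.MP_9f2731_nt.GP.Rel

open Finset

private theorem Qs_empty {k : ℕ} {V : Type} [Fintype V] (F : (Fin k × Bool → V) → ℝ)
    (C γ : Fin k → (Fin k × Bool → V) → ℝ) (I : Finset (Fin k)) :
    Qs F C γ I ∅ = av (fun x => F x * ∏ i ∈ I, C i x) := by
  unfold Qs
  congr 1
  funext x
  have h1 : cube (∅ : Finset (Fin k)) = {fun _ => false} := by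
    ext σ
    unfold cube
    simp only [Finset.mem_filter, Finset.mem_univ, true_and, Finset.notMem_empty, not_false_eq_true,
      forall_const, Finset.mem_singleton]
    exact ⟨fun h => funext h, fun h i => congrFun h i⟩
  have h2 : tw (fun _ => false) x = x := by
    funext p
    unfold tw
    simp
  rw [h1, Finset.prod_singleton, h2, Finset.prod_empty, Finset.sdiff_empty, mul_one]

private theorem Qs_self {k : ℕ} {V : Type} [Fintype V] (F : (Fin k × Bool → V) → ℝ)
    (C γ : Fin k → (Fin k × Bool → V) → ℝ) (I : Finset (Fin k)) :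
    Qs F C γ I I = av (fun x => (∏ σ ∈ cube I, F (tw σ x)) *
        ∏ i ∈ I, ∏ σ ∈ cube (I.erase i), γ i (tw σ x)) := by
  unfold Qs
  congr 1
  funext x
  simp only [Finset.sdiff_self, Finset.prod_empty, mul_one]

theorem pGcs (h1 : GstStmt) : GcsStmt := by
  classical
  intro k V _ _ j F C γ I hjI hF hC hav
  have key : ∀ s : Finset (Fin k), s ⊆ I →
      |Qs F C γ I ∅| ^ (2 ^ s.card) ≤ 2 ^ (2 ^ s.card - 1) * |Qs F C γ I s| := by
    intro s
    induction s using Finset.induction_on with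
    | empty => intro _; simp
    | insert i s his ih =>
      intro hs
      have hiI : i ∈ I := hs (Finset.mem_insert_self _ _)
      have hsI : s ⊆ I := fun m hm => hs (Finset.mem_insert_of_mem hm)
      have h2 := h1 k V j F C γ I s i hjI hsI hiI his hF hC (hav i hiI s hsI his)
      have h3 := ih hsI
      rw [Finset.card_insert_of_notMem his]
      have h4 : 1 ≤ 2 ^ s.card := Nat.one_le_two_pow
      have e1 : 2 ^ (s.card + 1) = 2 ^ s.card * 2 := pow_succ 2 s.card
      have e2 : |Qs F C γ I ∅| ^ (2 ^ (s.card + 1)) = (|Qs F C γ I ∅| ^ (2 ^ s.card)) ^ 2 := by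
        rw [e1, pow_mul]
      have e3 : (2 : ℝ) ^ (2 ^ (s.card + 1) - 1) = (2 ^ (2 ^ s.card - 1)) ^ 2 * 2 := by
        rw [← pow_mul, ← pow_succ]
        congr 1
        omega
      rw [e2, e3]
      calc (|Qs F C γ I ∅| ^ (2 ^ s.card)) ^ 2
          ≤ (2 ^ (2 ^ s.card - 1) * |Qs F C γ I s|) ^ 2 :=
            pow_le_pow_left₀ (by positivity) h3 2
        _ = (2 ^ (2 ^ s.card - 1)) ^ 2 * (Qs F C γ I s) ^ 2 := by rw [mul_pow, sq_abs]
        _ ≤ (2 ^ (2 ^ s.card - 1)) ^ 2 * (2 * |Qs F C γ I (insert i s)|) :=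
            mul_le_mul_of_nonneg_left h2 (by positivity)
        _ = (2 ^ (2 ^ s.card - 1)) ^ 2 * 2 * |Qs F C γ I (insert i s)| := by ring
  have h2 := key I Finset.Subset.rfl
  rw [Qs_empty, Qs_self] at h2
  refine h2.trans (mul_le_mul_of_nonneg_right ?_ (abs_nonneg _))
  exact pow_le_pow_right₀ (by norm_num) (Nat.sub_le _ _)

end Pool.Agent.Lib.MP_9f2731_nt.GP.Rel
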