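import Pool.Agent.Lib.MP_9f2731_nt.GP.Rel.Spec

/-!
MP_9f2731_nt, GP/Rel, module Gst (helper6): one step of the weighted Gowers-Cauchy-Schwarz inequality.
-/

namespace Pool.Agent.Lib.MP_9f2731_nt.GP.Rel

open Finset

section

variable {k : ℕ} {V : Type}

private theorem tw_update {σ : Fin k → Bool} {i : Fin k} (hσ : σ i = false) (c : Bool)
    (x : Fin k × Bool → V) (v : V) :
    tw σ (Function.update x (i, c) v) = Function.update (tw σ x) (i, c) v := by
  funext p
  unfold tw
  by_cases hp : p = (i, c)
  · subst hp
    rw [Function.update_self]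
    simp only [hσ, Bool.xor_false, Function.update_self]
  · rw [Function.update_of_ne hp, Function.update_of_ne]
    intro h
    apply hp
    obtain ⟨p1, p2⟩ := p
    simp only [Prod.mk.injEq] at h ⊢
    obtain ⟨h1, h2⟩ := h
    subst h1
    rw [hσ, Bool.xor_false] at h2
    exact ⟨rfl, h2⟩

private theorem swap_eq (i : Fin k) (x : Fin k × Bool → V) :
    (fun p => x (Equiv.swap (i, false) (i, true) p)) = tw (fun m => decide (m = i)) x := by
  funext p
  unfold tw
  obtain ⟨p1, p2⟩ := p
  by_cases h : p1 = i
  · subst h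
    cases p2
    · rw [Equiv.swap_apply_left]
      simp
    · rw [Equiv.swap_apply_right]
      simp
  · rw [Equiv.swap_apply_of_ne_of_ne (by simp [h]) (by simp [h])]
    simp [h]

private theorem tw_tw {σ : Fin k → Bool} {i : Fin k} (hσ : σ i = false) (x : Fin k × Bool → V) :
    tw σ (tw (fun m => decide (m = i)) x) = tw (Function.update σ i true) x := by
  funext p
  unfold tw
  obtain ⟨p1, p2⟩ := p
  by_cases h : p1 = i
  · subst h
    simp [hσ]
  · simp [h]

private theorem mem_cube {s : Finset (Fin k)} {σ : Fin k → Bool} :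
    σ ∈ cube s ↔ ∀ i, i ∉ s → σ i = false := by
  unfold cube
  simp

private theorem prod_cube_insert {s : Finset (Fin k)} {i : Fin k} (hi : i ∉ s)
    (G : (Fin k → Bool) → ℝ) :
    ∏ σ ∈ cube (insert i s), G σ =
      (∏ σ ∈ cube s, G σ) * ∏ σ ∈ cube s, G (Function.update σ i true) := by
  classical
  have hinj : ∀ σ ∈ cube s, ∀ τ ∈ cube s,
      Function.update σ i true = Function.update τ i true → σ = τ := by
    intro σ hσ τ hτ h
    funext m
    by_cases hm : m = i
    · subst hm
      rw [mem_cube.1 hσ m hi, mem_cube.1 hτ m hi]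
    · have := congrFun h m
      rwa [Function.update_of_ne hm, Function.update_of_ne hm] at this
  have hun : cube (insert i s) = cube s ∪ (cube s).image (fun σ => Function.update σ i true) := by
    ext σ
    rw [Finset.mem_union, Finset.mem_image]
    constructor
    · intro h
      cases hσ : σ i
      · left
        rw [mem_cube] at h ⊢
        intro m hm
        by_cases hmi : m = i
        · subst hmi
          exact hσ
        · exact h m (by simp [hmi, hm])
      · right
        refine ⟨Function.update σ i false, ?_, ?_⟩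
        · rw [mem_cube] at h ⊢
          intro m hm
          by_cases hmi : m = i
          · subst hmi
            exact Function.update_self ..
          · rw [Function.update_of_ne hmi]
            exact h m (by simp [hmi, hm])
        · rw [Function.update_idem, ← hσ, Function.update_eq_self]
    · rintro (h | ⟨τ, hτ, rfl⟩)
      · rw [mem_cube] at h ⊢
        intro m hm
        exact h m fun h' => hm (Finset.mem_insert_of_mem h')
      · rw [mem_cube] at hτ ⊢
        intro m hm
        have hmi : m ≠ i := fun h' => hm (h' ▸ Finset.mem_insert_self _ _)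
        rw [Function.update_of_ne hmi]
        exact hτ m fun h' => hm (Finset.mem_insert_of_mem h')
  have hdis : Disjoint (cube s) ((cube s).image (fun σ => Function.update σ i true)) := by
    rw [Finset.disjoint_left]
    intro σ hσ hσ'
    obtain ⟨τ, hτ, rfl⟩ := Finset.mem_image.1 hσ'
    have := mem_cube.1 hσ i hi
    rw [Function.update_self] at this
    exact Bool.noConfusion this
  rw [hun, Finset.prod_union hdis, Finset.prod_image hinj]

private theorem cube_false {s : Finset (Fin k)} {i : Fin k} (hi : i ∉ s) {σ : Fin k → Bool}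
    (hσ : σ ∈ cube s) : σ i = false := mem_cube.1 hσ i hi

end

theorem pGst (h1 : Cs1Stmt) : GstStmt := by
  classical
  intro k V _ _ j F C γ I s i hjI hsI hiI his hF hC hav
  have hij : i ≠ j := fun h => hjI (h ▸ hiI)
  have hab : ((i, false) : Fin k × Bool) ≠ (i, true) := by simp
  set P : (Fin k × Bool → V) → ℝ := fun x => ∏ σ ∈ cube s, C i (tw σ x) with hP
  set Γ : (Fin k × Bool → V) → ℝ := fun x => ∏ σ ∈ cube s, γ i (tw σ x) with hΓ
  set H : (Fin k × Bool → V) → ℝ := fun x =>
    (∏ σ ∈ cube s, (F (tw σ x) * ∏ l ∈ I \ insert i s, C l (tw σ x))) *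
      ∏ l ∈ s, ∏ σ ∈ cube (s.erase l), γ l (tw σ x) with hH
  have hσs : ∀ σ ∈ cube s, σ i = false := fun σ hσ => cube_false his hσ
  have hσl : ∀ l, ∀ σ ∈ cube (s.erase l), σ i = false := fun l σ hσ =>
    cube_false (fun h => his (Finset.mem_of_mem_erase h)) hσ
  have haP : Ind (i, false) P := by
    intro x v
    simp only [hP]
    refine Finset.prod_congr rfl fun σ hσ => ?_
    rw [tw_update (hσs σ hσ)]
    exact (hC i hiI).2.2.1 _ _
  have hbP : Ind (i, true) P := by
    intro x v
    simp only [hP]
    refine Finset.prod_congr rfl fun σ hσ => ?_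
    rw [tw_update (hσs σ hσ)]
    exact (hC i hiI).1 i hij _ _
  have haΓ : Ind (i, false) Γ := by
    intro x v
    simp only [hΓ]
    refine Finset.prod_congr rfl fun σ hσ => ?_
    rw [tw_update (hσs σ hσ)]
    exact (hC i hiI).2.2.2.1 _ _
  have hbΓ : Ind (i, true) Γ := by
    intro x v
    simp only [hΓ]
    refine Finset.prod_congr rfl fun σ hσ => ?_
    rw [tw_update (hσs σ hσ)]
    exact (hC i hiI).2.1 i hij _ _
  have hbH : Ind (i, true) H := by
    intro x v
    simp only [hH]
    congr 1
    · refine Finset.prod_congr rfl fun σ hσ => ?_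
      rw [tw_update (hσs σ hσ), hF i hij]
      congr 1
      refine Finset.prod_congr rfl fun l hl => ?_
      exact (hC l (Finset.mem_sdiff.1 hl).1).1 i hij _ _
    · refine Finset.prod_congr rfl fun l hl => Finset.prod_congr rfl fun σ hσ => ?_
      rw [tw_update (hσl l σ hσ)]
      exact (hC l (hsI hl)).2.1 i hij _ _
  have hPΓ : ∀ x, 0 ≤ P x ∧ P x ≤ Γ x := by
    intro x
    exact ⟨Finset.prod_nonneg fun σ _ => ((hC i hiI).2.2.2.2 _).1,
      Finset.prod_le_prod (fun σ _ => ((hC i hiI).2.2.2.2 _).1)
        fun σ _ => ((hC i hiI).2.2.2.2 _).2⟩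
  have key := h1 (Fin k × Bool) V (i, false) (i, true) P H Γ hab haP hbP haΓ hbΓ hbH hPΓ
  have e1 : Qs F C γ I s = av (fun x => P x * H x) := by
    unfold Qs
    congr 1
    funext x
    simp only [hP, hH]
    have hI : I \ s = insert i (I \ insert i s) := by
      ext m
      simp only [Finset.mem_sdiff, Finset.mem_insert]
      constructor
      · rintro ⟨h2, h3⟩
        by_cases hm : m = i
        · exact Or.inl hm
        · exact Or.inr ⟨h2, fun h4 => h4.elim hm h3⟩
      · rintro (rfl | ⟨h2, h3⟩)
        · exact ⟨hiI, his⟩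
        · exact ⟨h2, fun h4 => h3 (Or.inr h4)⟩
    have hni : i ∉ I \ insert i s := by simp
    have e2 : ∀ σ, F (tw σ x) * ∏ l ∈ I \ s, C l (tw σ x) =
        C i (tw σ x) * (F (tw σ x) * ∏ l ∈ I \ insert i s, C l (tw σ x)) := by
      intro σ
      rw [hI, Finset.prod_insert hni]
      ring
    simp only [e2]
    rw [Finset.prod_mul_distrib, mul_assoc]
  have e3 : Qs F C γ I (insert i s) =
      av (fun x => Γ x * (H x * H (fun p => x (Equiv.swap (i, false) (i, true) p)))) := by
    unfold Qs
    congr 1
    funext x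
    rw [swap_eq i x]
    simp only [hΓ, hH]
    rw [prod_cube_insert his, Finset.prod_insert his]
    have e4 : (insert i s).erase i = s := by
      rw [Finset.erase_insert his]
    rw [e4]
    have e5 : ∏ l ∈ s, ∏ σ ∈ cube ((insert i s).erase l), γ l (tw σ x) =
        (∏ l ∈ s, ∏ σ ∈ cube (s.erase l), γ l (tw σ x)) *
          ∏ l ∈ s, ∏ σ ∈ cube (s.erase l), γ l (tw (Function.update σ i true) x) := by
      rw [← Finset.prod_mul_distrib]
      refine Finset.prod_congr rfl fun l hl => ?_
      have hli : l ≠ i := fun h => his (h ▸ hl)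
      rw [Finset.erase_insert_of_ne hli.symm, prod_cube_insert]
      exact fun h => his (Finset.mem_of_mem_erase h)
    rw [e5]
    have e6 : ∏ σ ∈ cube s, (F (tw σ (tw (fun m => decide (m = i)) x)) *
        ∏ l ∈ I \ insert i s, C l (tw σ (tw (fun m => decide (m = i)) x))) =
        ∏ σ ∈ cube s, (F (tw (Function.update σ i true) x) *
          ∏ l ∈ I \ insert i s, C l (tw (Function.update σ i true) x)) :=
      Finset.prod_congr rfl fun σ hσ => by rw [tw_tw (hσs σ hσ)]
    have e7 : ∏ l ∈ s, ∏ σ ∈ cube (s.erase l), γ l (tw σ (tw (fun m => decide (m = i)) x)) =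
        ∏ l ∈ s, ∏ σ ∈ cube (s.erase l), γ l (tw (Function.update σ i true) x) :=
      Finset.prod_congr rfl fun l _ => Finset.prod_congr rfl fun σ hσ => by
        rw [tw_tw (hσl l σ hσ)]
    rw [e6, e7]
    ring
  rw [e1, e3]
  refine key.trans ?_
  refine (mul_le_mul_of_nonneg_left (le_abs_self _) ?_).trans
    (mul_le_mul_of_nonneg_right hav (abs_nonneg _))
  unfold av
  exact div_nonneg (Finset.sum_nonneg fun x _ => (hPΓ x).1.trans (hPΓ x).2) (by positivity)

end Pool.Agent.Lib.MP_9f2731_nt.GP.Rel
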