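import Pool.Agent.Lib.MP_9f2731_nt.GP.Rel.Spec

/-!
MP_9f2731_nt, GP/Rel: means over more variables (module Mrg).
-/

namespace Pool.Agent.Lib.MP_9f2731_nt.GP.Rel

open Finset

/-- the functions on `κ` are pairs of functions on `ι` and on the complement of the range -/
noncomputable def mrgE {ι κ : Type} (V : Type) {e : ι → κ} (he : Function.Injective e)
    [DecidablePred fun y => y ∈ Set.range e] :
    (κ → V) ≃ (ι → V) × ({y // ¬ y ∈ Set.range e} → V) :=
  (Equiv.piEquivPiSubtypeProd (fun y => y ∈ Set.range e) (fun _ => V)).trans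
    (Equiv.prodCongr ((Equiv.ofInjective e he).arrowCongr (Equiv.refl V)).symm (Equiv.refl _))

theorem mrgE_fst {ι κ : Type} (V : Type) {e : ι → κ} (he : Function.Injective e)
    [DecidablePred fun y => y ∈ Set.range e] (x : κ → V) (i : ι) :
    (mrgE V he x).1 i = x (e i) := rfl

theorem pMrg : MrgStmt := by
  classical
  intro ι κ V _ _ _ _ _ _ e he g
  have h1 : ∑ x : κ → V, g (fun i => x (e i)) =
      (Fintype.card ({y // ¬ y ∈ Set.range e} → V) : ℝ) * ∑ y : ι → V, g y := by
    calc ∑ x : κ → V, g (fun i => x (e i)) = ∑ x : κ → V, g (mrgE V he x).1 := rfl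
      _ = ∑ p : (ι → V) × ({y // ¬ y ∈ Set.range e} → V), g p.1 :=
        Equiv.sum_comp (mrgE V he) fun p => g p.1
      _ = _ := by
        rw [Fintype.sum_prod_type, Finset.mul_sum]
        refine Finset.sum_congr rfl fun y _ => ?_
        change ∑ _z : {y // ¬ y ∈ Set.range e} → V, g y = _
        rw [Finset.sum_const, Finset.card_univ, nsmul_eq_mul]
  have h2 : Fintype.card (κ → V) =
      Fintype.card (ι → V) * Fintype.card ({y // ¬ y ∈ Set.range e} → V) := by
    rw [Fintype.card_congr (mrgE V he), Fintype.card_prod]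
  have h3 : (Fintype.card ({y // ¬ y ∈ Set.range e} → V) : ℝ) ≠ 0 := by
    rw [Nat.cast_ne_zero]
    exact Fintype.card_ne_zero
  unfold av
  rw [h1, h2, Nat.cast_mul, mul_comm (Fintype.card (ι → V) : ℝ), mul_div_mul_left _ _ h3]

end Pool.Agent.Lib.MP_9f2731_nt.GP.Rel
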