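import Pool.Agent.Lib.MP_9f2731_nt.GP.Rel.Spec

/-!
MP_9f2731_nt, GP/Rel, module Nuc (helper6): the linear forms condition gives a small cut norm of ν - 1.
-/

namespace Pool.Agent.Lib.MP_9f2731_nt.GP.Rel

open Finset

private theorem pk_tw {k : ℕ} {V : Type} (σ : Fin k → Bool) (x : Fin k × Bool → V) :
    pk (fun _ => false) (tw σ x) = pk σ x := by
  funext i
  unfold pk tw
  simp

private theorem pk_update_true {k : ℕ} {V : Type} (i : Fin k) (x : Fin k × Bool → V) (v : V) :
    pk (fun _ => false) (Function.update x (i, true) v) = pk (fun _ => false) x := by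
  funext m
  unfold pk
  exact Function.update_of_ne (by simp) _ _

private theorem pk_update_false {k : ℕ} {V : Type} (i : Fin k) (x : Fin k × Bool → V) (v : V) :
    pk (fun _ => false) (Function.update x (i, false) v) =
      Function.update (pk (fun _ => false) x) i v := by
  funext m
  unfold pk
  by_cases h : m = i
  · subst h
    rw [Function.update_self, Function.update_self]
  · rw [Function.update_of_ne (by simp [h]), Function.update_of_ne h]

theorem pNuc (h1 : GcsStmt) (h2 : AltStmt) (h3 : CfmStmt) (h4 : MrgStmt) : NucStmt := by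
  classical
  intro r τ hτ
  refine ⟨τ ^ (2 ^ r) / (2 ^ (2 ^ r) * 2 ^ (2 ^ (r + 1))), by positivity, ?_⟩
  set η : ℝ := τ ^ (2 ^ r) / (2 ^ (2 ^ r) * 2 ^ (2 ^ (r + 1))) with hη
  have hη0 : 0 < η := by positivity
  intro G _ _ ν hinj hLFC
  haveI : Nonempty G := ⟨0⟩
  rw [h3 r G (fun x => ν x - 1) τ (Fin.last r) hinj]
  intro h hh
  set j : Fin (r + 1) := Fin.last r with hj
  set I : Finset (Fin (r + 1)) := univ.erase j with hI
  have hIj : j ∉ I := Finset.notMem_erase _ _
  have hIc : I.card = r := by
    rw [hI, Finset.card_erase_of_mem (Finset.mem_univ _), Finset.card_univ, Fintype.card_fin]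
    rfl
  have hne : ∀ l ∈ I, l ≠ j := fun l hl => Finset.ne_of_mem_erase hl
  -- Gowers-Cauchy-Schwarz
  have key := h1 (r + 1) G j (fun x => ν (frm j (pk (fun _ => false) x)) - 1)
    (fun i x => h i (pk (fun _ => false) x)) (fun _ _ => 1) I hIj
    (fun i _ x v => by
      show ν (frm j (pk (fun _ => false) (Function.update x (i, true) v))) - 1 = _
      rw [pk_update_true])
    (fun l hl => ⟨fun i _ x v => by
        show h l (pk (fun _ => false) (Function.update x (i, true) v)) = _
        rw [pk_update_true],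
      fun i _ x v => rfl,
      fun x v => by
        show h l (pk (fun _ => false) (Function.update x (l, false) v)) = _
        rw [pk_update_false, (hh l (hne l hl)).1],
      fun x v => rfl,
      fun x => (hh l (hne l hl)).2 _⟩)
    (fun i _ s _ _ => by
      simp only [Finset.prod_const_one]
      unfold av
      rw [Finset.sum_const, Finset.card_univ, nsmul_eq_mul, mul_one, div_self]
      · norm_num
      · exact_mod_cast Fintype.card_ne_zero)
  rw [hIc] at key
  simp only [Finset.prod_const_one, mul_one, pk_tw] at key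
  -- the alternating sum
  have hB : (cube I).Nonempty := ⟨fun _ => false, by unfold cube; simp⟩
  have hBc : (cube I).card ≤ 2 ^ (r + 1) := by
    refine (Finset.card_le_univ _).trans ?_
    rw [Fintype.card_fun, Fintype.card_bool, Fintype.card_fin]
  have hcj : ∀ σ ∈ cube I, σ j = false := by
    intro σ hσ
    unfold cube at hσ
    rw [Finset.mem_filter] at hσ
    exact hσ.2 j hIj
  have alt := h2 (Fin (r + 1) × Bool → G) (Fin (r + 1) → Bool) (cube I)
    (fun σ x => ν (frm j (pk σ x))) (fun _ => 1) η hB (fun A hA => by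
      have h5 := hLFC (A.image fun σ => (j, σ)) (fun p hp => by
        obtain ⟨σ, hσ, rfl⟩ := Finset.mem_image.1 hp
        exact hcj σ (hA hσ))
      have hinj' : ∀ σ ∈ A, ∀ σ' ∈ A, (j, σ) = (j, σ') → σ = σ' := by
        intro σ _ σ' _ he
        exact (Prod.mk.inj he).2
      simp only [Finset.prod_image hinj'] at h5
      unfold av
      simp only [one_mul]
      have hc : (Fintype.card (Fin (r + 1) × Bool → G) : ℝ) =
          (Fintype.card G : ℝ) ^ (2 * (r + 1)) := by
        rw [Fintype.card_fun, Fintype.card_prod, Fintype.card_fin, Fintype.card_bool, mul_comm]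
        push_cast
        ring
      rw [hc]
      exact h5)
  simp only [one_mul] at alt
  -- the mean over the first copies
  have hm := h4 (Fin (r + 1)) (Fin (r + 1) × Bool) G (fun i => (i, false))
    (fun a b hab => (Prod.mk.inj hab).1)
    (fun x => (ν (frm j x) - 1) * ∏ i ∈ I, h i x)
  have hm' : av (fun x : Fin (r + 1) × Bool → G => (ν (frm j (pk (fun _ => false) x)) - 1) *
      ∏ i ∈ I, h i (pk (fun _ => false) x)) =
      av (fun x : Fin (r + 1) → G => (ν (frm j x) - 1) * ∏ i ∈ I, h i x) := hm
  rw [hm'] at key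
  have h6 : |av (fun x : Fin (r + 1) → G => (ν (frm j x) - 1) * ∏ i ∈ I, h i x)| ^ (2 ^ r) ≤
      τ ^ (2 ^ r) := by
    refine key.trans ?_
    have h7 : (2 : ℝ) ^ (cube I).card * η ≤ 2 ^ (2 ^ (r + 1)) * η :=
      mul_le_mul_of_nonneg_right (pow_le_pow_right₀ (by norm_num) hBc) hη0.le
    calc (2 : ℝ) ^ (2 ^ r) * |av (fun x : Fin (r + 1) × Bool → G =>
          ∏ σ ∈ cube I, (ν (frm j (pk σ x)) - 1))|
        ≤ 2 ^ (2 ^ r) * (2 ^ (2 ^ (r + 1)) * η) :=
          mul_le_mul_of_nonneg_left (alt.trans h7) (by positivity)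
      _ = τ ^ (2 ^ r) := by
          rw [hη]
          field_simp
  have h8 : (2 : ℕ) ^ r ≠ 0 := by positivity
  exact (pow_le_pow_iff_left₀ (abs_nonneg _) hτ.le h8).1 h6

end Pool.Agent.Lib.MP_9f2731_nt.GP.Rel
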