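import Pool.Agent.Lib.MP_9f2731_nt.GP.Rel.Spec

/-!
MP_9f2731_nt, GP/Rel, module Phi (helper44): test functions.
-/

namespace Pool.Agent.Lib.MP_9f2731_nt.GP.Rel

open Finset

open Classical in
private theorem phi_card {G : Type} [AddCommGroup G] [Fintype G] (r : ℕ) (x : G) :
    (∑ y : Fin (r + 1) → G, if ∑ i, y i = x then (1 : ℝ) else 0) = (Fintype.card G : ℝ) ^ r := by
  have h1 : (∑ y : Fin (r + 1) → G, if ∑ i, y i = x then (1 : ℝ) else 0) =
      ∑ p : G × (Fin r → G), if p.1 + ∑ i, p.2 i = x then (1 : ℝ) else 0 := by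
    refine (Fintype.sum_equiv (Fin.consEquiv (fun _ => G)) _ _ ?_).symm
    rintro ⟨a, z⟩
    simp [Fin.consEquiv, Fin.sum_univ_succ]
  have h2 : ∀ z : Fin r → G, (∑ a : G, if a + ∑ i, z i = x then (1 : ℝ) else 0) = 1 := by
    intro z
    have h3 : ∀ a : G, (a + ∑ i, z i = x) ↔ (a = x - ∑ i, z i) :=
      fun a => eq_sub_iff_add_eq.symm
    simp [h3]
  rw [h1, Fintype.sum_prod_type_right]
  simp [h2]

private theorem phi_pos {G : Type} [AddCommGroup G] [Fintype G] :
    (0 : ℝ) < (Fintype.card G : ℝ) := by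
  have : 0 < Fintype.card G := Fintype.card_pos_iff.mpr ⟨0⟩
  exact_mod_cast this

open Classical in
theorem pPhi : PhiStmt := by
  intro G _ _ r hr
  obtain ⟨n, rfl⟩ : ∃ n, r = n + 1 := ⟨r - 1, by omega⟩
  have hc : (0 : ℝ) < (Fintype.card G : ℝ) := phi_pos
  refine ⟨?_, ?_, ?_⟩
  · intro h hA x
    have hP : ∀ y : Fin (n + 1) → G, 0 ≤ ∏ i, h i y ∧ ∏ i, h i y ≤ 1 := by
      intro y
      refine ⟨Finset.prod_nonneg fun i _ => ((hA i).2 y).1, ?_⟩
      exact Finset.prod_le_one (fun i _ => ((hA i).2 y).1) (fun i _ => ((hA i).2 y).2)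
    unfold phi
    refine ⟨?_, ?_⟩
    · refine div_nonneg (Finset.sum_nonneg fun y _ => ?_) (by positivity)
      split_ifs
      · exact (hP y).1
      · exact le_rfl
    · rw [div_le_one (by positivity)]
      have h1 := phi_card (G := G) n x
      have h2 : n + 1 - 1 = n := by omega
      rw [h2, ← h1]
      refine Finset.sum_le_sum fun y _ => ?_
      split_ifs
      · exact (hP y).2
      · exact le_rfl
  · intro x
    unfold phi
    have h1 := phi_card (G := G) n x
    have h2 : n + 1 - 1 = n := by omega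
    have h3 : ((Fintype.card G : ℝ) ^ n) ≠ 0 := by positivity
    rw [h2]
    simp only [Finset.prod_const_one]
    rw [h1, div_self h3]
  · intro h u
    unfold av phi
    have h2 : n + 1 - 1 = n := by omega
    rw [h2]
    have h3 : (∑ x : G, u x * ((∑ y : Fin (n + 1) → G, if ∑ i, y i = x then ∏ i, h i y else 0) /
        (Fintype.card G : ℝ) ^ n)) =
        (∑ y : Fin (n + 1) → G, u (∑ i, y i) * ∏ i, h i y) / (Fintype.card G : ℝ) ^ n := by
      rw [Finset.sum_div]
      simp only [mul_div_assoc', ← Finset.sum_div]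
      congr 1
      simp only [Finset.mul_sum]
      rw [Finset.sum_comm]
      refine Finset.sum_congr rfl fun y _ => ?_
      simp [mul_ite]
    rw [h3]
    have h4 : (Fintype.card (Fin (n + 1) → G) : ℝ) = (Fintype.card G : ℝ) ^ n *
        (Fintype.card G : ℝ) := by
      rw [Fintype.card_fun, Fintype.card_fin]
      push_cast
      ring
    rw [h4, div_div]

end Pool.Agent.Lib.MP_9f2731_nt.GP.Rel
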