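import Pool.Agent.Lib.MP_9f2731_nt.GP.Rel.Spec

/-!
MP_9f2731_nt, GP/Rel/Pml: products of test functions (helper77, after helper78's docstring).
-/

namespace Pool.Agent.Lib.MP_9f2731_nt.GP.Rel

open Finset

/-- the family with the shift z -/
private def pmlSh {G : Type} [AddCommGroup G] {r : ℕ} (h h' : Fin r → (Fin r → G) → ℝ)
    (z : Fin r → G) : Fin r → (Fin r → G) → ℝ := fun i y => h i y * h' i (y + z)

private theorem pml_adm {G : Type} [AddCommGroup G] {r : ℕ}
    {h h' : Fin r → (Fin r → G) → ℝ} (hh : Adm h) (hh' : Adm h') (z : Fin r → G) :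
    Adm (pmlSh h h' z) := by
  intro i
  constructor
  · intro y v
    have h1 : Function.update y i v + z = Function.update (y + z) i (v + z i) := by
      ext t
      by_cases ht : t = i
      · subst ht
        simp
      · simp [ht]
    unfold pmlSh
    rw [h1, (hh i).1 y v, (hh' i).1 (y + z) (v + z i)]
  · intro y
    have h1 := (hh i).2 y
    have h2 := (hh' i).2 (y + z)
    exact ⟨mul_nonneg h1.1 h2.1, mul_le_one₀ h1.2 h2.1 h2.2⟩

open Classical in
private theorem pml_mul {G : Type} [AddCommGroup G] [Fintype G] {r : ℕ}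
    (h h' : Fin r → (Fin r → G) → ℝ) (x : G) :
    phi h x * phi h' x = (∑ z : Fin r → G, if ∑ i, z i = 0 then phi (pmlSh h h' z) x else 0) /
      (Fintype.card G : ℝ) ^ (r - 1) := by
  unfold phi
  have key : (∑ y : Fin r → G, if ∑ i, y i = x then ∏ i, h i y else 0) *
      (∑ y : Fin r → G, if ∑ i, y i = x then ∏ i, h' i y else 0) =
      ∑ z : Fin r → G, if ∑ i, z i = 0 then
        (∑ y : Fin r → G, if ∑ i, y i = x then ∏ i, pmlSh h h' z i y else 0) else 0 := by
    rw [Finset.sum_mul]
    have h1 : ∀ y : Fin r → G, (if ∑ i, y i = x then ∏ i, h i y else 0) *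
        (∑ y : Fin r → G, if ∑ i, y i = x then ∏ i, h' i y else 0) =
        ∑ z : Fin r → G, (if ∑ i, y i = x then ∏ i, h i y else 0) *
          (if ∑ i, (y + z) i = x then ∏ i, h' i (y + z) else 0) := by
      intro y
      rw [← Finset.mul_sum]
      congr 1
      exact (Fintype.sum_equiv (Equiv.addLeft y) _ _ (fun z => rfl)).symm
    rw [Finset.sum_congr rfl (fun y _ => h1 y), Finset.sum_comm]
    refine Finset.sum_congr rfl fun z _ => ?_
    by_cases hz : ∑ i, z i = 0
    · rw [if_pos hz]
      refine Finset.sum_congr rfl fun y _ => ?_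
      have h2 : ∑ i, (y + z) i = ∑ i, y i := by
        simp only [Pi.add_apply, Finset.sum_add_distrib, hz, add_zero]
      rw [h2]
      by_cases hy : ∑ i, y i = x
      · rw [if_pos hy, if_pos hy, if_pos hy, ← Finset.prod_mul_distrib]
        rfl
      · rw [if_neg hy, if_neg hy, if_neg hy, mul_zero]
    · rw [if_neg hz]
      refine Finset.sum_eq_zero fun y _ => ?_
      by_cases hy : ∑ i, y i = x
      · have h2 : ¬ ∑ i, (y + z) i = x := by
          simp only [Pi.add_apply, Finset.sum_add_distrib, hy]
          intro h3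
          exact hz (by simpa using h3)
        rw [if_neg h2, mul_zero]
      · rw [if_neg hy, zero_mul]
  rw [div_mul_div_comm, key]
  have h2 : ∀ z : Fin r → G, (if ∑ i, z i = 0 then
      (∑ y : Fin r → G, if ∑ i, y i = x then ∏ i, pmlSh h h' z i y else 0) /
        (Fintype.card G : ℝ) ^ (r - 1) else 0) = (if ∑ i, z i = 0 then
      (∑ y : Fin r → G, if ∑ i, y i = x then ∏ i, pmlSh h h' z i y else 0) else 0) /
        (Fintype.card G : ℝ) ^ (r - 1) := by
    intro z
    split_ifs
    · rfl
    · rw [zero_div]
  rw [Finset.sum_congr rfl (fun z _ => h2 z), ← Finset.sum_div, div_div]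

open Classical in
theorem pPml (hP : PhiStmt) : PmlStmt := by
  intro G _ _ r τ u hr hu L hL
  obtain ⟨-, hone, hpair⟩ := hP G r hr
  have hN : (0 : ℝ) < (Fintype.card G : ℝ) ^ (r - 1) := by
    have h1 : 0 < Fintype.card G := Fintype.card_pos_iff.mpr ⟨0⟩
    positivity
  have hcount : (∑ z : Fin r → G, if ∑ i, z i = 0 then (1 : ℝ) else 0) =
      (Fintype.card G : ℝ) ^ (r - 1) := by
    have h1 := hone 0
    unfold phi at h1
    rw [div_eq_iff hN.ne', one_mul] at h1
    rw [← h1]
    refine Finset.sum_congr rfl fun z _ => ?_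
    simp only [Finset.prod_const_one]
  have hadm1 : Adm (fun (_ : Fin r) (_ : Fin r → G) => (1 : ℝ)) :=
    fun i => ⟨fun _ _ => rfl, fun _ => ⟨zero_le_one, le_rfl⟩⟩
  -- lists with at least one element
  have main : ∀ L' : List (Fin r → (Fin r → G) → ℝ), (∀ h ∈ L', Adm h) →
      ∀ h : Fin r → (Fin r → G) → ℝ, Adm h →
      |av (fun x => u x * (phi h x * (L'.map (fun h => phi h x)).prod))| ≤ τ := by
    intro L'
    induction L' with
    | nil =>
      intro _ h hh
      simp only [List.map_nil, List.prod_nil, mul_one]
      rw [hpair]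
      exact hu h hh
    | cons h' L'' ih =>
      intro hL' h hh
      have hh' : Adm h' := hL' h' (List.mem_cons_self ..)
      have hL'' : ∀ g ∈ L'', Adm g := fun g hg => hL' g (List.mem_cons_of_mem _ hg)
      have h1 : (av fun x => u x * (phi h x * (((h' :: L'').map (fun h => phi h x)).prod))) =
          (∑ z : Fin r → G, if ∑ i, z i = 0 then
            av (fun x => u x * (phi (pmlSh h h' z) x * (L''.map (fun h => phi h x)).prod))
            else 0) / (Fintype.card G : ℝ) ^ (r - 1) := by
        have h2 : ∀ x : G, u x * (phi h x * (((h' :: L'').map (fun h => phi h x)).prod)) =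
            (∑ z : Fin r → G, if ∑ i, z i = 0 then
              u x * (phi (pmlSh h h' z) x * (L''.map (fun h => phi h x)).prod) else 0) /
              (Fintype.card G : ℝ) ^ (r - 1) := by
          intro x
          rw [List.map_cons, List.prod_cons, ← mul_assoc (phi h x), pml_mul h h' x,
            div_mul_eq_mul_div, mul_div_assoc', Finset.sum_mul, Finset.mul_sum]
          congr 1
          refine Finset.sum_congr rfl fun z _ => ?_
          split_ifs
          · rfl
          · rw [zero_mul, mul_zero]
        unfold av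
        rw [Finset.sum_congr rfl (fun x _ => h2 x), ← Finset.sum_div, Finset.sum_comm, div_div,
          mul_comm ((Fintype.card G : ℝ) ^ (r - 1)), ← div_div, Finset.sum_div]
        congr 1
        refine Finset.sum_congr rfl fun z _ => ?_
        split_ifs
        · rfl
        · rw [Finset.sum_const_zero, zero_div]
      rw [h1, abs_div, abs_of_pos hN, div_le_iff₀ hN]
      calc |∑ z : Fin r → G, if ∑ i, z i = 0 then
            av (fun x => u x * (phi (pmlSh h h' z) x * (L''.map (fun h => phi h x)).prod))
            else 0|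
          ≤ ∑ z : Fin r → G, |if ∑ i, z i = 0 then
            av (fun x => u x * (phi (pmlSh h h' z) x * (L''.map (fun h => phi h x)).prod))
            else 0| := Finset.abs_sum_le_sum_abs _ _
        _ ≤ ∑ z : Fin r → G, τ * (if ∑ i, z i = 0 then (1 : ℝ) else 0) := by
            refine Finset.sum_le_sum fun z _ => ?_
            split_ifs
            · rw [mul_one]
              exact ih hL'' _ (pml_adm hh hh' z)
            · rw [abs_zero, mul_zero]
        _ = τ * (Fintype.card G : ℝ) ^ (r - 1) := by
            rw [← Finset.mul_sum, hcount]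
  cases L with
  | nil =>
    have h1 := main [] (by simp) _ hadm1
    simp only [List.map_nil, List.prod_nil, mul_one, hone] at h1 ⊢
    exact h1
  | cons h L' =>
    simp only [List.map_cons, List.prod_cons]
    exact main L' (fun g hg => hL g (List.mem_cons_of_mem _ hg)) h (hL h (List.mem_cons_self ..))

end Pool.Agent.Lib.MP_9f2731_nt.GP.Rel
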