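import Pool.Agent.Lib.MP_9f2731_nt.GP.Rel.Spec

/-!
MP_9f2731_nt, GP/Rel: the regret bound (module Reg).
-/

namespace Pool.Agent.Lib.MP_9f2731_nt.GP.Rel

open Finset

/-- projection to the unit interval -/
theorem reg_proj (u w : ℝ) (h0 : 0 ≤ w) (h1 : w ≤ 1) :
    (w - max 0 (min 1 u)) * (u - max 0 (min 1 u)) ≤ 0 := by
  rcases le_or_gt u 0 with h | h
  · rw [min_eq_right (by linarith), max_eq_left h, sub_zero, sub_zero]
    exact mul_nonpos_of_nonneg_of_nonpos h0 h
  · rcases le_or_gt u 1 with h2 | h2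
    · rw [min_eq_right h2, max_eq_right h.le, sub_self, mul_zero]
    · rw [min_eq_left h2.le, max_eq_right zero_le_one]
      exact mul_nonpos_of_nonpos_of_nonneg (by linarith) (by linarith)

/-- the potential -/
noncomputable def regP (u : ℝ) : ℝ := 2 * max 0 (min 1 u) * u - (max 0 (min 1 u)) ^ 2

theorem regP_step (u b : ℝ) : regP (u + b) ≤ regP u + 2 * max 0 (min 1 u) * b + b ^ 2 := by
  have h := reg_proj u (max 0 (min 1 (u + b))) (le_max_left _ _)
    (max_le zero_le_one (min_le_left _ _))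
  have h2 := sq_nonneg ((max 0 (min 1 (u + b)) - max 0 (min 1 u)) - b)
  unfold regP
  nlinarith

theorem regP_low (u : ℝ) : 2 * max u 0 ≤ regP u + 1 := by
  unfold regP
  rcases le_or_gt u 0 with h | h
  · rw [min_eq_right (by linarith), max_eq_left h, max_eq_right h]
    norm_num
  · rcases le_or_gt u 1 with h2 | h2
    · rw [min_eq_right h2, max_eq_right h.le, max_eq_left h.le]
      nlinarith [sq_nonneg (u - 1)]
    · rw [min_eq_left h2.le, max_eq_right zero_le_one, max_eq_left h.le]
      linarith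

theorem pReg : RegStmt := by
  intro T a γ hγ ha
  have key : ∀ T : ℕ, regP (γ * ∑ s ∈ range T, a s) ≤
      2 * γ * ∑ t ∈ range T, max 0 (min 1 (γ * ∑ s ∈ range t, a s)) * a t + γ ^ 2 * T := by
    intro T
    induction T with
    | zero => simp [regP]
    | succ T ih =>
      rw [Finset.sum_range_succ, Finset.sum_range_succ, mul_add]
      have h1 := regP_step (γ * ∑ s ∈ range T, a s) (γ * a T)
      have h2 : (γ * a T) ^ 2 ≤ γ ^ 2 := by
        rw [mul_pow]
        have h3 : (a T) ^ 2 ≤ 1 := by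
          rw [sq_le_one_iff_abs_le_one]
          exact ha T
        nlinarith [sq_nonneg γ]
      push_cast
      nlinarith
  have h1 := key T
  have h2 := regP_low (γ * ∑ s ∈ range T, a s)
  have h3 : max (γ * ∑ s ∈ range T, a s) 0 = γ * max (∑ s ∈ range T, a s) 0 := by
    rw [mul_max_of_nonneg _ _ hγ.le, mul_zero]
  rw [h3] at h2
  have h4 : 2 * γ * max (∑ s ∈ range T, a s) 0 ≤
      2 * γ * (∑ t ∈ range T, max 0 (min 1 (γ * ∑ s ∈ range t, a s)) * a t + 1 / (2 * γ) +
        γ * T / 2) := by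
    have h5 : 2 * γ * (1 / (2 * γ)) = 1 := by field_simp
    nlinarith
  exact le_of_mul_le_mul_left h4 (by positivity)

end Pool.Agent.Lib.MP_9f2731_nt.GP.Rel
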