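import Pool.Agent.Lib.MP_9f2731_nt.GP.Rel.Spec

/-! Strong form of the linear forms condition. -/

namespace Pool.Agent.Lib.MP_9f2731_nt.GP.Rel

open Finset

private lemma stfPk0 {k : ℕ} {V : Type} (σ : Fin k → Bool) (x : Fin k × Bool → V) :
    pk (fun _ => false) (tw σ x) = pk σ x := by
  funext i
  simp [pk, tw]

private lemma stfPk1 {k : ℕ} {V : Type} (j : Fin k) (σ : Fin k → Bool) (hσ : σ j = false)
    (x : Fin k × Bool → V) :
    pk (one j) (tw σ x) = pk (Function.update σ j true) x := by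
  funext i
  by_cases hij : i = j
  · subst hij
    simp [pk, tw, one, hσ]
  · simp [pk, tw, one, hij]

private lemma stfU0 {k : ℕ} {V : Type} (l : Fin k) (x : Fin k × Bool → V) (v : V) :
    pk (fun _ => false) (Function.update x (l, false) v) =
      Function.update (pk (fun _ => false) x) l v := by
  funext i
  by_cases hil : i = l
  · subst hil; simp [pk]
  · simp [pk, hil]

private lemma stfU1 {k : ℕ} {V : Type} (j l : Fin k) (hl : l ≠ j) (x : Fin k × Bool → V) (v : V) :
    pk (one j) (Function.update x (l, false) v) = Function.update (pk (one j) x) l v := by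
  funext i
  by_cases hil : i = l
  · subst hil
    simp [pk, one, hl]
  · simp [pk, hil]

private lemma stfT0 {k : ℕ} {V : Type} (l : Fin k) (x : Fin k × Bool → V) (v : V) :
    pk (fun _ => false) (Function.update x (l, true) v) = pk (fun _ => false) x := by
  funext i
  simp [pk]

private lemma stfT1 {k : ℕ} {V : Type} (j l : Fin k) (hl : l ≠ j) (x : Fin k × Bool → V) (v : V) :
    pk (one j) (Function.update x (l, true) v) = pk (one j) x := by
  funext i
  by_cases hil : i = l
  · subst hil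
    simp [pk, one, hl]
  · simp [pk, hil]

/-- the means of the mixed products -/
private lemma stfMain {k : ℕ} {V : Type} [Fintype V] {η : ℝ} {ν : Fin k → (Fin k → V) → ℝ}
    (j : Fin k) (hH : HLFC η ν) (A1 B1 : Finset (Fin k)) (A : Finset (Fin k → Bool))
    (hA : ∀ σ ∈ A, σ j = false) (U : Finset (Fin k × (Fin k → Bool)))
    (hU : ∀ p ∈ U, p.1 ≠ j ∧ p.2 j = false ∧ p.2 p.1 = false) :
    |av (fun x : Fin k × Bool → V => (∏ σ ∈ A, ν j (pk σ x)) *
      ∏ p ∈ U, ((if p.1 ∈ A1 then ν p.1 (pk (fun _ => false) (tw p.2 x)) else 1) *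
        (if p.1 ∈ B1 then ν p.1 (pk (one j) (tw p.2 x)) else 1))) - 1| ≤ η := by
  let S3 := (U.filter (fun p => p.1 ∈ B1)).image (fun p => (p.1, Function.update p.2 j true))
  let S := A.image (fun σ => (j, σ)) ∪ (U.filter (fun p => p.1 ∈ A1) ∪ S3)
  have hS := hH S (by
    intro p hp
    rcases Finset.mem_union.mp hp with hp | hp
    · obtain ⟨σ, hσ, rfl⟩ := Finset.mem_image.mp hp
      exact hA σ hσ
    · rcases Finset.mem_union.mp hp with hp | hp
      · exact (hU p (Finset.mem_filter.mp hp).1).2.2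
      · obtain ⟨q, hq, rfl⟩ := Finset.mem_image.mp hp
        have h := hU q (Finset.mem_filter.mp hq).1
        show Function.update q.2 j true q.1 = false
        rw [Function.update_of_ne h.1]
        exact h.2.2)
  have hprod : ∀ x : Fin k × Bool → V, ∏ p ∈ S, ν p.1 (pk p.2 x) =
      (∏ σ ∈ A, ν j (pk σ x)) *
      ∏ p ∈ U, ((if p.1 ∈ A1 then ν p.1 (pk (fun _ => false) (tw p.2 x)) else 1) *
        (if p.1 ∈ B1 then ν p.1 (pk (one j) (tw p.2 x)) else 1)) := by
    intro x
    have d1 : Disjoint (A.image (fun σ => (j, σ))) (U.filter (fun p => p.1 ∈ A1) ∪ S3) := by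
      rw [Finset.disjoint_left]
      intro p hp hq
      obtain ⟨σ, _, rfl⟩ := Finset.mem_image.mp hp
      rcases Finset.mem_union.mp hq with hq | hq
      · exact (hU _ (Finset.mem_filter.mp hq).1).1 rfl
      · obtain ⟨q, hq, hqe⟩ := Finset.mem_image.mp hq
        exact (hU q (Finset.mem_filter.mp hq).1).1 (Prod.mk.inj hqe).1
    have d2 : Disjoint (U.filter (fun p => p.1 ∈ A1)) S3 := by
      rw [Finset.disjoint_left]
      intro p hp hq
      obtain ⟨q, hq, rfl⟩ := Finset.mem_image.mp hq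
      have h := (hU _ (Finset.mem_filter.mp hp).1).2.1
      simp at h
    have e1 : ∏ p ∈ A.image (fun σ => (j, σ)), ν p.1 (pk p.2 x) = ∏ σ ∈ A, ν j (pk σ x) := by
      rw [Finset.prod_image]
      intro p _ q _ hpq
      exact (Prod.mk.inj hpq).2
    have e2 : ∏ p ∈ U.filter (fun p => p.1 ∈ A1), ν p.1 (pk p.2 x) =
        ∏ p ∈ U, (if p.1 ∈ A1 then ν p.1 (pk (fun _ => false) (tw p.2 x)) else 1) := by
      rw [Finset.prod_filter]
      refine Finset.prod_congr rfl fun p _ => ?_
      rw [stfPk0]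
    have e3 : ∏ p ∈ S3, ν p.1 (pk p.2 x) =
        ∏ p ∈ U, (if p.1 ∈ B1 then ν p.1 (pk (one j) (tw p.2 x)) else 1) := by
      show ∏ p ∈ (U.filter (fun p => p.1 ∈ B1)).image
        (fun p => (p.1, Function.update p.2 j true)), ν p.1 (pk p.2 x) = _
      rw [Finset.prod_image, Finset.prod_filter]
      · refine Finset.prod_congr rfl fun p hp => ?_
        rw [stfPk1 j p.2 (hU p hp).2.1]
      · intro p hp q hq hpq
        have hp' := (hU p (Finset.mem_filter.mp hp).1).2.1
        have hq' := (hU q (Finset.mem_filter.mp hq).1).2.1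
        obtain ⟨h1, h2⟩ := Prod.mk.inj hpq
        refine Prod.ext h1 ?_
        funext t
        by_cases ht : t = j
        · rw [ht, hp', hq']
        · have := congrFun h2 t
          rwa [Function.update_of_ne ht, Function.update_of_ne ht] at this
    rw [Finset.prod_union d1, Finset.prod_union d2, e1, e2, e3, Finset.prod_mul_distrib]
  simp only [hprod] at hS
  exact hS

theorem pStf (h1 : GcsStmt) (h2 : AltStmt) : StfStmt := by
  intro k ε hε
  classical
  set N : ℕ := 2 ^ (k - 1) with hN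
  have hN0 : N ≠ 0 := by positivity
  have hM : (0 : ℝ) < 2 ^ N * 2 ^ (2 ^ k) := by positivity
  refine ⟨min 1 (ε ^ N / (2 ^ N * 2 ^ (2 ^ k))), by positivity, ?_⟩
  intro V _ _ ν a b j hν hH hab
  set η : ℝ := min 1 (ε ^ N / (2 ^ N * 2 ^ (2 ^ k))) with hη
  have hη1 : η ≤ 1 := min_le_left _ _
  have hη2 : η ≤ ε ^ N / (2 ^ N * 2 ^ (2 ^ k)) := min_le_right _ _
  set I : Finset (Fin k) := univ.erase j with hI
  let A1 : Finset (Fin k) := univ.filter (fun i => ∀ x, a i x ≤ ν i x)
  let B1 : Finset (Fin k) := univ.filter (fun i => ∀ x, b i x ≤ ν i x)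
  let F : (Fin k × Bool → V) → ℝ := fun x => ν j (pk (fun _ => false) x) - 1
  let C : Fin k → (Fin k × Bool → V) → ℝ := fun i x =>
    a i (pk (fun _ => false) x) * b i (pk (one j) x)
  let γ : Fin k → (Fin k × Bool → V) → ℝ := fun i x =>
    (if i ∈ A1 then ν i (pk (fun _ => false) x) else 1) *
      (if i ∈ B1 then ν i (pk (one j) x) else 1)
  have hjI : j ∉ I := by simp [hI]
  have hIj : ∀ i ∈ I, i ≠ j := fun i hi h => hjI (h ▸ hi)
  have hcard : I.card = k - 1 := by
    rw [hI, Finset.card_erase_of_mem (Finset.mem_univ j), Finset.card_univ, Fintype.card_fin]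
  have hFr : Fr j F := by
    intro i hi x v
    show ν j (pk _ (Function.update x (i, true) v)) - 1 = ν j (pk _ x) - 1
    rw [stfT0]
  have hC : ∀ l ∈ I, Fr j (C l) ∧ Fr j (γ l) ∧ Ind (l, false) (C l) ∧ Ind (l, false) (γ l) ∧
      ∀ x, 0 ≤ C l x ∧ C l x ≤ γ l x := by
    intro l hl
    have hlj := hIj l hl
    obtain ⟨ia, ib, a0, b0, haν, hbν⟩ := hab l hlj
    refine ⟨?_, ?_, ?_, ?_, ?_⟩
    · intro i hi x v
      show a l (pk _ (Function.update x (i, true) v)) * b l (pk _ (Function.update x (i, true) v)) =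
        a l (pk _ x) * b l (pk _ x)
      rw [stfT0, stfT1 j i hi]
    · intro i hi x v
      show (if l ∈ A1 then ν l (pk _ (Function.update x (i, true) v)) else 1) *
          (if l ∈ B1 then ν l (pk _ (Function.update x (i, true) v)) else 1) =
        (if l ∈ A1 then ν l (pk _ x) else 1) * (if l ∈ B1 then ν l (pk _ x) else 1)
      rw [stfT0, stfT1 j i hi]
    · intro x v
      show a l (pk _ (Function.update x (l, false) v)) * b l (pk _ (Function.update x (l, false) v)) =
        a l (pk _ x) * b l (pk _ x)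
      rw [stfU0, stfU1 j l hlj, ia, ib]
    · intro x v
      show (if l ∈ A1 then ν l (pk _ (Function.update x (l, false) v)) else 1) *
          (if l ∈ B1 then ν l (pk _ (Function.update x (l, false) v)) else 1) =
        (if l ∈ A1 then ν l (pk _ x) else 1) * (if l ∈ B1 then ν l (pk _ x) else 1)
      rw [stfU0, stfU1 j l hlj, (hν l).1, (hν l).1]
    · intro x
      refine ⟨mul_nonneg (a0 _) (b0 _), ?_⟩
      have ha : ∀ y, a l y ≤ (if l ∈ A1 then ν l y else 1) := by
        intro y
        by_cases h : l ∈ A1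
        · rw [if_pos h]
          exact (Finset.mem_filter.mp h).2 y
        · rw [if_neg h]
          rcases haν with h' | h'
          · exact absurd (Finset.mem_filter.mpr ⟨Finset.mem_univ l, h'⟩) h
          · exact h' y
      have hb : ∀ y, b l y ≤ (if l ∈ B1 then ν l y else 1) := by
        intro y
        by_cases h : l ∈ B1
        · rw [if_pos h]
          exact (Finset.mem_filter.mp h).2 y
        · rw [if_neg h]
          rcases hbν with h' | h'
          · exact absurd (Finset.mem_filter.mpr ⟨Finset.mem_univ l, h'⟩) h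
          · exact h' y
      exact mul_le_mul (ha _) (hb _) (b0 _) (le_trans (a0 _) (ha _))
  have hcube : ∀ s : Finset (Fin k), ∀ σ ∈ cube s, ∀ i, i ∉ s → σ i = false := by
    intro s σ hσ
    exact (Finset.mem_filter.mp hσ).2
  have h2' : ∀ i ∈ I, ∀ s ⊆ I, i ∉ s →
      av (fun x : Fin k × Bool → V => ∏ σ ∈ cube s, γ i (tw σ x)) ≤ 2 := by
    intro i hi s hs his
    have hjs : j ∉ s := fun h => hjI (hs h)
    have hm := stfMain (V := V) j hH A1 B1 ∅ (by simp) ((cube s).image (fun σ => (i, σ))) (by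
      intro p hp
      obtain ⟨σ, hσ, rfl⟩ := Finset.mem_image.mp hp
      exact ⟨hIj i hi, hcube s σ hσ j hjs, hcube s σ hσ i his⟩)
    have hpr : ∀ x : Fin k × Bool → V, (∏ σ ∈ (∅ : Finset (Fin k → Bool)), ν j (pk σ x)) *
        ∏ p ∈ (cube s).image (fun σ => (i, σ)),
          ((if p.1 ∈ A1 then ν p.1 (pk (fun _ => false) (tw p.2 x)) else 1) *
          (if p.1 ∈ B1 then ν p.1 (pk (one j) (tw p.2 x)) else 1)) =
        ∏ σ ∈ cube s, γ i (tw σ x) := by
      intro x
      rw [Finset.prod_empty, one_mul, Finset.prod_image]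
      intro p _ q _ hpq
      exact (Prod.mk.inj hpq).2
    simp only [hpr] at hm
    have := (abs_le.mp hm).2
    linarith
  have hG := h1 k V j F C γ I hjI hFr hC h2'
  have hAl : |av (fun x : Fin k × Bool → V =>
      (∏ i ∈ I, ∏ σ ∈ cube (I.erase i), γ i (tw σ x)) *
        ∏ σ ∈ cube I, (ν j (pk σ x) - 1))| ≤ 2 ^ (cube I).card * η := by
    apply h2 (Fin k × Bool → V) (Fin k → Bool) (cube I) (fun σ x => ν j (pk σ x))
      (fun x => ∏ i ∈ I, ∏ σ ∈ cube (I.erase i), γ i (tw σ x)) η
    · exact ⟨fun _ => false, Finset.mem_filter.mpr ⟨Finset.mem_univ _, fun _ _ => rfl⟩⟩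
    · intro A hA
      let U : Finset (Fin k × (Fin k → Bool)) :=
        univ.filter (fun p => p.1 ∈ I ∧ p.2 ∈ cube (I.erase p.1))
      have hUm : ∀ p : Fin k × (Fin k → Bool), p ∈ U ↔ p.1 ∈ I ∧ p.2 ∈ cube (I.erase p.1) := by
        intro p
        simp [U]
      have hm := stfMain (V := V) j hH A1 B1 A (fun σ hσ => hcube I σ (hA hσ) j hjI) U (by
        intro p hp
        obtain ⟨hp1, hp2⟩ := (hUm p).mp hp
        refine ⟨hIj _ hp1, hcube _ _ hp2 j (fun h => hjI (Finset.mem_of_mem_erase h)), ?_⟩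
        exact hcube _ _ hp2 p.1 (Finset.notMem_erase _ _))
      have hpr : ∀ x : Fin k × Bool → V, (∏ σ ∈ A, ν j (pk σ x)) *
          ∏ p ∈ U, ((if p.1 ∈ A1 then ν p.1 (pk (fun _ => false) (tw p.2 x)) else 1) *
            (if p.1 ∈ B1 then ν p.1 (pk (one j) (tw p.2 x)) else 1)) =
          (∏ i ∈ I, ∏ σ ∈ cube (I.erase i), γ i (tw σ x)) * ∏ σ ∈ A, ν j (pk σ x) := by
        intro x
        rw [mul_comm]
        congr 1
        exact Finset.prod_finset_product' U I (fun i => cube (I.erase i)) hUm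
          (f := fun i σ => γ i (tw σ x))
      simp only [hpr] at hm
      exact hm
  have hcI : (cube I).card ≤ 2 ^ k := by
    refine le_trans (Finset.card_le_univ _) ?_
    rw [Fintype.card_fun, Fintype.card_bool, Fintype.card_fin]
  have hfin : |av (fun x : Fin k × Bool → V => (∏ σ ∈ cube I, F (tw σ x)) *
        ∏ i ∈ I, ∏ σ ∈ cube (I.erase i), γ i (tw σ x))| ≤ 2 ^ (2 ^ k) * η := by
    have he : (fun x : Fin k × Bool → V => (∏ σ ∈ cube I, F (tw σ x)) *
        ∏ i ∈ I, ∏ σ ∈ cube (I.erase i), γ i (tw σ x)) =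
        (fun x : Fin k × Bool → V =>
      (∏ i ∈ I, ∏ σ ∈ cube (I.erase i), γ i (tw σ x)) *
        ∏ σ ∈ cube I, (ν j (pk σ x) - 1)) := by
      funext x
      rw [mul_comm]
      congr 1
      refine Finset.prod_congr rfl fun σ _ => ?_
      show ν j (pk _ (tw σ x)) - 1 = ν j (pk σ x) - 1
      rw [stfPk0]
    rw [he]
    refine le_trans hAl ?_
    have hη0 : 0 ≤ η := by
      have : (0 : ℝ) ≤ ε ^ N / (2 ^ N * 2 ^ (2 ^ k)) := by positivity
      exact le_min zero_le_one this
    exact mul_le_mul_of_nonneg_right (pow_le_pow_right₀ (by norm_num) hcI) hη0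
  rw [hcard] at hG
  have hpow : |av (fun x => F x * ∏ i ∈ I, C i x)| ^ N ≤ ε ^ N := by
    refine le_trans hG ?_
    calc (2 : ℝ) ^ N * |av (fun x : Fin k × Bool → V => (∏ σ ∈ cube I, F (tw σ x)) *
        ∏ i ∈ I, ∏ σ ∈ cube (I.erase i), γ i (tw σ x))|
        ≤ 2 ^ N * (2 ^ (2 ^ k) * η) := by
          exact mul_le_mul_of_nonneg_left hfin (by positivity)
      _ ≤ 2 ^ N * (2 ^ (2 ^ k) * (ε ^ N / (2 ^ N * 2 ^ (2 ^ k)))) := by
          gcongr
      _ = ε ^ N := by
          field_simp
  exact (pow_le_pow_iff_left₀ (abs_nonneg _) hε.le hN0).mp hpow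

end Pool.Agent.Lib.MP_9f2731_nt.GP.Rel
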