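import Pool.Agent.Lib.MP_9f2731_nt.GP.Rel.Spec

/-! Variance of the trace. -/

namespace Pool.Agent.Lib.MP_9f2731_nt.GP.Rel

open Finset

private lemma varNe {k : ℕ} (j : Fin k) : (fun _ : Fin k => false) ≠ one j := by
  intro h
  have := congrFun h j
  simp [one] at this

private lemma varAv {α : Type} [Fintype α] (a b : α → ℝ) :
    av (fun x => a x + b x) = av a + av b := by
  unfold av
  rw [Finset.sum_add_distrib, add_div]

private lemma varMul {α : Type} [Fintype α] (c : ℝ) (a : α → ℝ) :
    av (fun x => c * a x) = c * av a := by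
  unfold av
  rw [← Finset.mul_sum, mul_div_assoc]

private lemma varConst {α : Type} [Fintype α] [Nonempty α] (c : ℝ) :
    av (fun _ : α => c) = c := by
  unfold av
  rw [Finset.sum_const, Finset.card_univ, nsmul_eq_mul]
  have : (Fintype.card α : ℝ) ≠ 0 := by
    exact_mod_cast Fintype.card_ne_zero
  field_simp

private lemma varOne {k : ℕ} {V : Type} [Fintype V] [Nonempty V] (h2 : MrgStmt) {η : ℝ}
    {ν : Fin k → (Fin k → V) → ℝ} (E : Finset (Fin k)) (hH : HLFC η ν) :
    |av (fun x => ∏ i ∈ E, ν i x) - 1| ≤ η := by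
  have he : Function.Injective (fun i : Fin k => (i, false)) := by
    intro p q hpq
    exact (Prod.mk.inj hpq).1
  have hm := h2 (Fin k) (Fin k × Bool) V (fun i => (i, false)) he (fun x => ∏ i ∈ E, ν i x)
  rw [← hm]
  have hS := hH (E.image (fun i => (i, (fun _ : Fin k => false)))) (by
    intro p hp
    obtain ⟨i, _, rfl⟩ := Finset.mem_image.mp hp
    rfl)
  have hprod : ∀ x : Fin k × Bool → V,
      ∏ p ∈ E.image (fun i => (i, (fun _ : Fin k => false))), ν p.1 (pk p.2 x) =
        ∏ i ∈ E, ν i (fun i => x (i, false)) := by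
    intro x
    rw [Finset.prod_image]
    · rfl
    · intro p _ q _ hpq
      exact (Prod.mk.inj hpq).1
  simp only [hprod] at hS
  exact hS

theorem pVar (h1 : Pr2Stmt) (h2 : MrgStmt) : VarStmt := by
  intro k V _ _ η ν j E hη hj hH
  have hA := varOne h2 E hH
  have hw : Ind j (fun _ : Fin k → V => (1 : ℝ)) := fun _ _ => rfl
  have hP := h1 k V j E E ν ν (fun _ => 1) hw
  have hT1 : av (fun x => tr j E ν x) = av (fun x => ∏ i ∈ E, ν i x) := by
    have := hP.1
    simpa using this
  have hT2 : av (fun x => tr j E ν x * tr j E ν x) = av (fun x : Fin k × Bool → V =>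
      (∏ i ∈ E, ν i (pk (fun _ => false) x)) * ∏ i ∈ E, ν i (pk (one j) x)) := by
    have := hP.2
    simpa using this
  have hS := hH (E.image (fun i => (i, (fun _ : Fin k => false))) ∪ E.image (fun i => (i, one j))) (by
    intro p hp
    rcases Finset.mem_union.mp hp with hp | hp
    · obtain ⟨i, _, rfl⟩ := Finset.mem_image.mp hp
      rfl
    · obtain ⟨i, hi, rfl⟩ := Finset.mem_image.mp hp
      have : i ≠ j := fun h => hj (h ▸ hi)
      simp [one, this])
  have hprod : ∀ x : Fin k × Bool → V,
      ∏ p ∈ E.image (fun i => (i, (fun _ : Fin k => false))) ∪ E.image (fun i => (i, one j)),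
        ν p.1 (pk p.2 x) =
        (∏ i ∈ E, ν i (pk (fun _ => false) x)) * ∏ i ∈ E, ν i (pk (one j) x) := by
    intro x
    rw [Finset.prod_union]
    · rw [Finset.prod_image, Finset.prod_image]
      · intro p _ q _ hpq
        exact (Prod.mk.inj hpq).1
      · intro p _ q _ hpq
        exact (Prod.mk.inj hpq).1
    · rw [Finset.disjoint_left]
      intro p hp hq
      obtain ⟨i, _, rfl⟩ := Finset.mem_image.mp hp
      obtain ⟨i', _, hi'⟩ := Finset.mem_image.mp hq
      exact varNe j (Prod.mk.inj hi').2.symm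
  simp only [hprod] at hS
  rw [← hT2] at hS
  constructor
  · have hsq : av (fun x => (tr j E ν x - 1) ^ 2) =
        av (fun x => tr j E ν x * tr j E ν x) + (-2) * av (fun x => tr j E ν x) + 1 := by
      have e1 : (fun x => (tr j E ν x - 1) ^ 2) =
          (fun x => (tr j E ν x * tr j E ν x + (-2) * tr j E ν x) + 1) := by
        funext x; ring
      rw [e1, varAv (fun x => tr j E ν x * tr j E ν x + (-2) * tr j E ν x) (fun _ => 1),
        varAv (fun x => tr j E ν x * tr j E ν x) (fun x => (-2) * tr j E ν x),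
        varMul (-2) (fun x => tr j E ν x), varConst]
    rw [hsq, hT1]
    have a1 := abs_le.mp hA
    have a2 := abs_le.mp hS
    linarith [a1.1, a1.2, a2.1, a2.2]
  · have hB := varOne h2 {j} hH
    simp only [Finset.prod_singleton] at hB
    have := (abs_le.mp hB).2
    have h3 : av (fun x => ν j x) = av (ν j) := rfl
    linarith

end Pool.Agent.Lib.MP_9f2731_nt.GP.Rel
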