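import Pool.Agent.Lib.MP_9f2731_nt.GP.Rel.Alt
import Pool.Agent.Lib.MP_9f2731_nt.GP.Rel.Cfg
import Pool.Agent.Lib.MP_9f2731_nt.GP.Rel.Cfm
import Pool.Agent.Lib.MP_9f2731_nt.GP.Rel.Cl
import Pool.Agent.Lib.MP_9f2731_nt.GP.Rel.Cl0
import Pool.Agent.Lib.MP_9f2731_nt.GP.Rel.Cl1
import Pool.Agent.Lib.MP_9f2731_nt.GP.Rel.Cs1
import Pool.Agent.Lib.MP_9f2731_nt.GP.Rel.Dmt
import Pool.Agent.Lib.MP_9f2731_nt.GP.Rel.Dns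
import Pool.Agent.Lib.MP_9f2731_nt.GP.Rel.Fnl
import Pool.Agent.Lib.MP_9f2731_nt.GP.Rel.Gcs
import Pool.Agent.Lib.MP_9f2731_nt.GP.Rel.Gst
import Pool.Agent.Lib.MP_9f2731_nt.GP.Rel.Mrg
import Pool.Agent.Lib.MP_9f2731_nt.GP.Rel.Nuc
import Pool.Agent.Lib.MP_9f2731_nt.GP.Rel.Phi
import Pool.Agent.Lib.MP_9f2731_nt.GP.Rel.Pml
import Pool.Agent.Lib.MP_9f2731_nt.GP.Rel.Pol
import Pool.Agent.Lib.MP_9f2731_nt.GP.Rel.Pr2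
import Pool.Agent.Lib.MP_9f2731_nt.GP.Rel.Reg
import Pool.Agent.Lib.MP_9f2731_nt.GP.Rel.Stf
import Pool.Agent.Lib.MP_9f2731_nt.GP.Rel.Upd
import Pool.Agent.Lib.MP_9f2731_nt.GP.Rel.Var

/-!
MP_9f2731_nt, GP/Rel: the relative Szemeredi theorem from the density Hales-Jewett theorem.
-/

namespace Pool.Agent.Lib.MP_9f2731_nt.GP.Rel

theorem relAll (hD : DhjStmt) : RelStmt := by
  have aGst := pGst (pCs1 pUpd)
  have aGcs := pGcs aGst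
  have aPr2 := pPr2 pUpd pMrg
  have aCl := pCl pCl0 (pCl1 (pStf aGcs pAlt) aPr2 (pVar aPr2 pMrg))
  have aPol := pPol pPhi (pPml pPhi)
  have aDmt := pDmt pReg pPhi aPol
  have aNuc := pNuc aGcs pAlt pCfm pMrg
  exact pFnl (pDns hD) aCl aDmt aNuc pCfm pCfg pPhi

end Pool.Agent.Lib.MP_9f2731_nt.GP.Rel
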