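import Pool.Agent.Lib.MP_9f2731_nt.GP.Rel.Spec

/-! Alternating sums over subsets. -/

namespace Pool.Agent.Lib.MP_9f2731_nt.GP.Rel

open Finset

private lemma altSign {κ : Type} [DecidableEq κ] {B : Finset κ} (hB : B.Nonempty) :
    ∑ t ∈ B.powerset, ((-1 : ℝ)) ^ t.card = 0 := by
  have h := Finset.sum_powerset_neg_one_pow_card_of_nonempty hB
  have h2 : (((∑ t ∈ B.powerset, ((-1 : ℤ)) ^ t.card : ℤ)) : ℝ) = 0 := by
    rw [h]; simp
  push_cast at h2
  exact h2

theorem pAlt : AltStmt := by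
  intro Ω κ _ _ B f Γ η hB hA
  have h1 : av (fun x => Γ x * ∏ c ∈ B, (f c x - 1)) =
      ∑ t ∈ B.powerset, (-1 : ℝ) ^ t.card * av (fun x => Γ x * ∏ c ∈ B \ t, f c x) := by
    have hx : ∀ x, Γ x * ∏ c ∈ B, (f c x - 1) =
        ∑ t ∈ B.powerset, (-1 : ℝ) ^ t.card * (Γ x * ∏ c ∈ B \ t, f c x) := by
      intro x
      rw [Finset.prod_sub, Finset.mul_sum]
      refine Finset.sum_congr rfl fun t _ => ?_
      simp only [Finset.prod_const_one, mul_one]
      ring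
    unfold av
    simp_rw [hx]
    rw [Finset.sum_comm, Finset.sum_div]
    refine Finset.sum_congr rfl fun t _ => ?_
    rw [← Finset.mul_sum, mul_div_assoc]
  have h2 : av (fun x => Γ x * ∏ c ∈ B, (f c x - 1)) =
      ∑ t ∈ B.powerset, (-1 : ℝ) ^ t.card * (av (fun x => Γ x * ∏ c ∈ B \ t, f c x) - 1) := by
    rw [h1]
    have : ∑ t ∈ B.powerset, (-1 : ℝ) ^ t.card * (av (fun x => Γ x * ∏ c ∈ B \ t, f c x) - 1) =
        ∑ t ∈ B.powerset, (-1 : ℝ) ^ t.card * av (fun x => Γ x * ∏ c ∈ B \ t, f c x) -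
          ∑ t ∈ B.powerset, (-1 : ℝ) ^ t.card := by
      rw [← Finset.sum_sub_distrib]
      refine Finset.sum_congr rfl fun t _ => ?_
      ring
    rw [this, altSign hB, sub_zero]
  rw [h2]
  calc |∑ t ∈ B.powerset, (-1 : ℝ) ^ t.card * (av (fun x => Γ x * ∏ c ∈ B \ t, f c x) - 1)|
      ≤ ∑ t ∈ B.powerset, |(-1 : ℝ) ^ t.card * (av (fun x => Γ x * ∏ c ∈ B \ t, f c x) - 1)| :=
        Finset.abs_sum_le_sum_abs _ _
    _ ≤ ∑ _t ∈ B.powerset, η := by
        refine Finset.sum_le_sum fun t _ => ?_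
        rw [abs_mul, abs_pow, abs_neg, abs_one, one_pow, one_mul]
        exact hA _ Finset.sdiff_subset
    _ = 2 ^ B.card * η := by
        rw [Finset.sum_const, Finset.card_powerset, nsmul_eq_mul]
        push_cast
        ring

end Pool.Agent.Lib.MP_9f2731_nt.GP.Rel
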