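import Pool.Agent.Lib.MP_9f2731_nt.GP.Rel.Spec

/-!
MP_9f2731_nt, GP/Rel, module Dns (helper6): Szemeredi's theorem with counts in finite groups from the
density Hales-Jewett theorem.
-/

namespace Pool.Agent.Lib.MP_9f2731_nt.GP.Rel

open Finset

private theorem count_shift {G : Type} [AddCommGroup G] [Fintype G] [DecidableEq G] (A : Finset G)
    (s : ℕ) : ∑ p : G × G, (if p.1 + s • p.2 ∈ A then 1 else 0) = Fintype.card G * A.card := by
  rw [Fintype.sum_prod_type_right]
  have h1 : ∀ v : G, ∑ b : G, (if b + s • v ∈ A then 1 else 0) = A.card := by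
    intro v
    rw [Fintype.sum_equiv (Equiv.addRight (s • v)) (fun b => if b + s • v ∈ A then 1 else 0)
      (fun b => if b ∈ A then 1 else 0) (fun b => rfl)]
    simp
  simp only [h1, Finset.sum_const, Finset.card_univ, smul_eq_mul]

private theorem line_sum {k n : ℕ} (w : Fin n → Option (Fin k)) (i : Fin k) :
    ∑ t, ((lineMap w i t : Fin k) : ℕ) =
      (∑ t, (w t).elim 0 (fun a => (a : ℕ))) + (i : ℕ) * (univ.filter fun t => w t = none).card := by
  have h1 : ∀ t, ((lineMap w i t : Fin k) : ℕ) =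
      (w t).elim 0 (fun a => (a : ℕ)) + (i : ℕ) * (if w t = none then 1 else 0) := by
    intro t
    unfold lineMap
    cases w t with
    | none => simp
    | some a => simp
  simp only [h1]
  rw [Finset.sum_add_distrib, ← Finset.mul_sum]
  congr 2
  rw [Finset.card_filter]

theorem pDns (h : DhjStmt) : DnsStmt := by
  classical
  intro k δ hk hδ
  obtain ⟨n, hn⟩ := h k (δ / 4) (by positivity)
  have hkpos : (0 : ℝ) < k := by exact_mod_cast hk
  refine ⟨(δ / 2) ^ k * ((δ / 4) / ((k : ℝ) + 1) ^ n), n, by positivity, ?_⟩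
  intro G _ _ hinj f hf hsum
  set g : ℝ := (Fintype.card G : ℝ) with hg
  have hg0 : 0 < g := by
    haveI : Nonempty G := ⟨0⟩
    have h0 : 0 < Fintype.card G := Fintype.card_pos
    rw [hg]
    exact_mod_cast h0
  set A : Finset G := univ.filter fun x => δ / 2 ≤ f x with hA
  -- A is large
  have hAc : δ / 2 * g ≤ (A.card : ℝ) := by
    have h1 : ∑ x, f x ≤ ∑ x, ((if x ∈ A then (1 : ℝ) else 0) + δ / 2) := by
      refine Finset.sum_le_sum fun x _ => ?_
      by_cases hx : x ∈ A
      · rw [if_pos hx]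
        linarith [(hf x).2]
      · rw [if_neg hx]
        have : ¬ δ / 2 ≤ f x := fun h' => hx (by simp [hA, h'])
        linarith
    rw [Finset.sum_add_distrib] at h1
    have h2 : ∑ x, (if x ∈ A then (1 : ℝ) else 0) = A.card := by simp
    have h3 : ∑ _x : G, δ / 2 = g * (δ / 2) := by
      rw [Finset.sum_const, Finset.card_univ, nsmul_eq_mul]
    rw [h2, h3] at h1
    linarith
  -- the sets of words
  set Aw : G × G → Finset (Fin n → Fin k) := fun p =>
    univ.filter fun w => p.1 + (∑ t, ((w t : Fin k) : ℕ)) • p.2 ∈ A with hAw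
  have hdouble : ∑ p : G × G, ((Aw p).card : ℝ) = (k : ℝ) ^ n * (g * A.card) := by
    have h1 : ∑ p : G × G, (Aw p).card = k ^ n * (Fintype.card G * A.card) := by
      simp only [hAw, Finset.card_filter]
      rw [Finset.sum_comm]
      have h2 : ∀ w : Fin n → Fin k, ∑ p : G × G,
          (if p.1 + (∑ t, ((w t : Fin k) : ℕ)) • p.2 ∈ A then 1 else 0) =
          Fintype.card G * A.card := fun w => count_shift A _
      simp only [h2, Finset.sum_const, Finset.card_univ, smul_eq_mul, Fintype.card_fun,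
        Fintype.card_fin]
    rw [hg]
    exact_mod_cast h1
  -- good pairs
  set B : Finset (G × G) := univ.filter fun p => δ / 4 * (k : ℝ) ^ n ≤ ((Aw p).card : ℝ) with hB
  have hAwle : ∀ p, ((Aw p).card : ℝ) ≤ (k : ℝ) ^ n := by
    intro p
    have h1 : (Aw p).card ≤ k ^ n := by
      refine (Finset.card_le_univ _).trans ?_
      rw [Fintype.card_fun, Fintype.card_fin, Fintype.card_fin]
    exact_mod_cast h1
  have hkn : (0 : ℝ) < (k : ℝ) ^ n := by positivity
  have hGG : (Fintype.card (G × G) : ℝ) = g ^ 2 := by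
    rw [Fintype.card_prod]
    push_cast
    ring
  have hBc : δ / 4 * g ^ 2 ≤ (B.card : ℝ) := by
    have h1 : ∑ p : G × G, ((Aw p).card : ℝ) ≤
        ∑ p : G × G, ((if p ∈ B then (k : ℝ) ^ n else 0) + δ / 4 * (k : ℝ) ^ n) := by
      refine Finset.sum_le_sum fun p _ => ?_
      by_cases hp : p ∈ B
      · rw [if_pos hp]
        have h2 := hAwle p
        have h3 : 0 ≤ δ / 4 * (k : ℝ) ^ n := by positivity
        linarith
      · rw [if_neg hp]
        have : ¬ δ / 4 * (k : ℝ) ^ n ≤ ((Aw p).card : ℝ) := fun h' => hp (by simp [hB, h'])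
        linarith
    rw [Finset.sum_add_distrib, hdouble] at h1
    have h2 : ∑ p : G × G, (if p ∈ B then (k : ℝ) ^ n else 0) = B.card * (k : ℝ) ^ n := by
      rw [← Finset.sum_filter, Finset.sum_const, nsmul_eq_mul]
      congr 2
      congr 1
      ext p
      simp
    have h3 : ∑ _p : G × G, δ / 4 * (k : ℝ) ^ n = g ^ 2 * (δ / 4 * (k : ℝ) ^ n) := by
      rw [Finset.sum_const, Finset.card_univ, nsmul_eq_mul, hGG]
    rw [h2, h3] at h1
    have h4 : (k : ℝ) ^ n * (g * (δ / 2 * g)) ≤ (k : ℝ) ^ n * (g * A.card) :=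
      mul_le_mul_of_nonneg_left (mul_le_mul_of_nonneg_left hAc hg0.le) hkn.le
    have h5 : (k : ℝ) ^ n * (δ / 4 * g ^ 2) ≤ (k : ℝ) ^ n * B.card := by nlinarith
    exact le_of_mul_le_mul_left h5 hkn
  -- progressions
  set P : Finset (G × G) := univ.filter fun p => ∀ i : Fin k, p.1 + (i : ℕ) • p.2 ∈ A with hP
  set Bw : (Fin n → Option (Fin k)) → Finset (G × G) := fun w =>
    univ.filter fun p => (∃ t, w t = none) ∧
      ∀ i : Fin k, p.1 + (∑ t, ((lineMap w i t : Fin k) : ℕ)) • p.2 ∈ A with hBw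
  have hBB : B ⊆ univ.biUnion Bw := by
    intro p hp
    have h1 : δ / 4 * (k : ℝ) ^ n ≤ ((Aw p).card : ℝ) := (Finset.mem_filter.1 hp).2
    obtain ⟨w, hw1, hw2⟩ := hn (Aw p) h1
    refine Finset.mem_biUnion.2 ⟨w, Finset.mem_univ _, ?_⟩
    simp only [hBw, Finset.mem_filter, Finset.mem_univ, true_and]
    refine ⟨hw1, fun i => ?_⟩
    exact (Finset.mem_filter.1 (hw2 i)).2
  have hBwP : ∀ w, (Bw w).card ≤ P.card := by
    intro w
    by_cases hw : ∃ t, w t = none
    · set sw : ℕ := (univ.filter fun t => w t = none).card with hsw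
      have hsw1 : 1 ≤ sw := by
        obtain ⟨t, ht⟩ := hw
        exact Finset.card_pos.2 ⟨t, by simp [ht]⟩
      have hswn : sw ≤ n := by
        refine (Finset.card_le_univ _).trans ?_
        rw [Fintype.card_fin]
      refine Finset.card_le_card_of_injOn
        (fun p => (p.1 + (∑ t, (w t).elim 0 (fun a => (a : ℕ))) • p.2, sw • p.2)) ?_ ?_
      · intro p hp
        have h1 := (Finset.mem_filter.1 (Finset.mem_coe.1 hp)).2.2
        simp only [hP, Finset.coe_filter, Finset.mem_univ, true_and, Set.mem_setOf_eq]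
        intro i
        have h2 := h1 i
        rw [line_sum, add_smul, mul_smul, ← add_assoc] at h2
        exact h2
      · rintro ⟨b, v⟩ _ ⟨b', v'⟩ _ he
        simp only [Prod.mk.injEq] at he
        have hv : v = v' := hinj sw hsw1 hswn he.2
        subst hv
        have hb : b = b' := add_right_cancel he.1
        rw [hb]
    · have : Bw w = ∅ := by
        rw [Finset.eq_empty_iff_forall_notMem]
        intro p hp
        exact hw (Finset.mem_filter.1 hp).2.1
      rw [this]
      simp
  have hBP : (B.card : ℝ) ≤ ((k : ℝ) + 1) ^ n * P.card := by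
    have h1 : B.card ≤ (k + 1) ^ n * P.card := by
      refine (Finset.card_le_card hBB).trans ?_
      refine Finset.card_biUnion_le.trans ?_
      refine (Finset.sum_le_sum fun w _ => hBwP w).trans ?_
      rw [Finset.sum_const, Finset.card_univ, smul_eq_mul, Fintype.card_fun, Fintype.card_option,
        Fintype.card_fin, Fintype.card_fin]
    exact_mod_cast h1
  -- the count
  have hcount : (δ / 2) ^ k * P.card ≤ ∑ x : G, ∑ d : G, ∏ j : Fin k, f (x + (j : ℕ) • d) := by
    rw [← Fintype.sum_prod_type' (f := fun x d => ∏ j : Fin k, f (x + (j : ℕ) • d))]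
    calc (δ / 2) ^ k * P.card = ∑ _p ∈ P, (δ / 2) ^ k := by
          rw [Finset.sum_const, nsmul_eq_mul, mul_comm]
      _ ≤ ∑ p ∈ P, ∏ j : Fin k, f (p.1 + (j : ℕ) • p.2) := by
          refine Finset.sum_le_sum fun p hp => ?_
          have h1 := (Finset.mem_filter.1 hp).2
          calc (δ / 2) ^ k = ∏ _j : Fin k, (δ / 2) := by
                rw [Finset.prod_const, Finset.card_univ, Fintype.card_fin]
            _ ≤ _ := Finset.prod_le_prod (fun _ _ => by positivity)
                fun j _ => (Finset.mem_filter.1 (h1 j)).2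
      _ ≤ ∑ p : G × G, ∏ j : Fin k, f (p.1 + (j : ℕ) • p.2) :=
          Finset.sum_le_sum_of_subset_of_nonneg (Finset.subset_univ _)
            fun p _ _ => Finset.prod_nonneg fun j _ => (hf _).1
  refine le_trans ?_ hcount
  have hk1 : (0 : ℝ) < ((k : ℝ) + 1) ^ n := by positivity
  have h6 : δ / 4 / ((k : ℝ) + 1) ^ n * g ^ 2 ≤ P.card := by
    rw [div_mul_eq_mul_div, div_le_iff₀ hk1]
    calc δ / 4 * g ^ 2 ≤ B.card := hBc
      _ ≤ _ := hBP
      _ = _ := by ring
  rw [mul_assoc]
  exact mul_le_mul_of_nonneg_left h6 (by positivity)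

end Pool.Agent.Lib.MP_9f2731_nt.GP.Rel
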