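import Pool.Agent.Lib.MP_9f2731_nt.GP.Rel.Spec

/-! Means of products with traces. -/

namespace Pool.Agent.Lib.MP_9f2731_nt.GP.Rel

open Finset

private lemma trInd {k : ℕ} {V : Type} [Fintype V] (j : Fin k) (E : Finset (Fin k))
    (b : Fin k → (Fin k → V) → ℝ) : Ind j (tr j E b) := by
  intro x v
  unfold tr
  simp only [Function.update_idem]

private lemma pr2First (h1 : UpdStmt) (k : ℕ) (V : Type) [Fintype V] [Nonempty V] (j : Fin k)
    (E : Finset (Fin k)) (a : Fin k → (Fin k → V) → ℝ) (w : (Fin k → V) → ℝ) (hw : Ind j w) :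
    av (fun x => w x * tr j E a x) = av (fun x => w x * ∏ i ∈ E, a i x) := by
  have h := h1 (Fin k) V j (fun x => w x * ∏ i ∈ E, a i x)
  rw [← h]
  congr 1
  funext x
  have hh : ∀ v, w (Function.update x j v) = w x := fun v => hw x v
  simp only [hh]
  unfold tr av
  rw [← Finset.mul_sum, mul_div_assoc]

theorem pPr2 (h1 : UpdStmt) (h2 : MrgStmt) : Pr2Stmt := by
  intro k V _ _ j E E' a b w hw
  refine ⟨pr2First h1 k V j E a w hw, ?_⟩
  let e : Option (Fin k) → Fin k × Bool := fun o => o.elim (j, true) (fun i => (i, false))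
  have he : Function.Injective e := by
    intro p q hpq
    rcases p with _ | p <;> rcases q with _ | q
    · rfl
    · simp [e] at hpq
    · simp [e] at hpq
    · simp only [e, Option.elim_some, Prod.mk.injEq, and_true] at hpq
      rw [hpq]
  let g : (Option (Fin k) → V) → ℝ := fun z =>
    w (fun i => z (some i)) * ((∏ i ∈ E, a i (fun i => z (some i))) *
      ∏ i ∈ E', b i (Function.update (fun i => z (some i)) j (z none)))
  have hm := h2 (Option (Fin k)) (Fin k × Bool) V e he g
  have hr : (fun x : Fin k × Bool → V => w (pk (fun _ => false) x) *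
        ((∏ i ∈ E, a i (pk (fun _ => false) x)) * ∏ i ∈ E', b i (pk (one j) x))) =
      (fun x : Fin k × Bool → V => g (fun i => x (e i))) := by
    funext x
    have hp : pk (one j) x = Function.update (fun i => x (i, false)) j (x (j, true)) := by
      funext i
      by_cases hij : i = j
      · subst hij; simp [pk, one]
      · simp [pk, one, hij]
    rw [hp]
    rfl
  rw [hr, hm]
  have hg : av g = av (fun x : Fin k → V => (w x * tr j E' b x) * ∏ i ∈ E, a i x) := by
    unfold av
    have hs : ∑ z : Option (Fin k) → V, g z =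
        ∑ x : Fin k → V, ∑ v : V, w x * ((∏ i ∈ E, a i x) *
          ∏ i ∈ E', b i (Function.update x j v)) := by
      rw [← (Equiv.piOptionEquivProd (α := Fin k) (β := fun _ => V)).symm.sum_comp,
        Fintype.sum_prod_type, Finset.sum_comm]
      rfl
    rw [hs]
    have hc : (Fintype.card (Option (Fin k) → V) : ℝ) =
        (Fintype.card (Fin k → V) : ℝ) * (Fintype.card V : ℝ) := by
      rw [Fintype.card_fun, Fintype.card_fun, Fintype.card_option, pow_succ]
      push_cast
      ring
    rw [hc, ← div_div, div_right_comm, Finset.sum_div]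
    congr 1
    refine Finset.sum_congr rfl fun x _ => ?_
    unfold tr av
    rw [← Finset.mul_sum, ← Finset.mul_sum]
    ring
  rw [hg]
  have hi : Ind j (fun x => w x * tr j E' b x) := by
    intro x v
    show w _ * tr j E' b _ = w _ * tr j E' b _
    rw [hw x v, trInd j E' b x v]
  rw [← pr2First h1 k V j E a (fun x => w x * tr j E' b x) hi]
  congr 1
  funext x
  ring

end Pool.Agent.Lib.MP_9f2731_nt.GP.Rel
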