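import Pool.Agent.Lib.MP_9f2731_nt.GP.Defs

/-!
MP_9f2731_nt, GP/Rel (helper78): the relative Szemeredi theorem with counts in finite abelian groups
(Conlon-Fox-Zhao): DhjStmt → RelStmt. Rules: a module `X.lean` in this directory starts with
`import Pool.Agent.Lib.MP_9f2731_nt.GP.Rel.Spec`, `namespace Pool.Agent.Lib.MP_9f2731_nt.GP.Rel`,
`open Finset` and proves the theorem `pX`. Statements under Uses are hypotheses, in this order
(`theorem pX (h1 : AStmt) (h2 : BStmt) : XStmt`). All modules are independent.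
-/

namespace Pool.Agent.Lib.MP_9f2731_nt.GP.Rel

open Finset

/-- mean over a finite type -/
noncomputable def av {α : Type} [Fintype α] (g : α → ℝ) : ℝ := (∑ x, g x) / (Fintype.card α : ℝ)

/-- g does not depend on the coordinate i -/
def Ind {ι V : Type} [DecidableEq ι] (i : ι) (g : (ι → V) → ℝ) : Prop :=
  ∀ (x : ι → V) (v : V), g (Function.update x i v) = g x

/-- the copy of the variables chosen by σ -/
def pk {k : ℕ} {V : Type} (σ : Fin k → Bool) (x : Fin k × Bool → V) : Fin k → V :=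
  fun i => x (i, σ i)

/-- linear forms condition for weighted hypergraphs: ν j is the weight of the edge without the vertex j -/
def HLFC {k : ℕ} {V : Type} [Fintype V] (η : ℝ) (ν : Fin k → (Fin k → V) → ℝ) : Prop :=
  ∀ S : Finset (Fin k × (Fin k → Bool)), (∀ p ∈ S, p.2 p.1 = false) →
    |av (fun x : Fin k × Bool → V => ∏ p ∈ S, ν p.1 (pk p.2 x)) - 1| ≤ η

/-- cut norm at most τ for functions of the edge without the vertex j -/
def Cut {k : ℕ} {V : Type} [Fintype V] (j : Fin k) (τ : ℝ) (u : (Fin k → V) → ℝ) : Prop :=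
  ∀ h : Fin k → (Fin k → V) → ℝ,
    (∀ i, i ≠ j → Ind i (h i) ∧ ∀ x, 0 ≤ h i x ∧ h i x ≤ 1) →
    |av (fun x => u x * ∏ i ∈ univ.erase j, h i x)| ≤ τ

/-- cut norm at most τ for functions on the group -/
def CutG {G : Type} [AddCommGroup G] [Fintype G] (r : ℕ) (τ : ℝ) (u : G → ℝ) : Prop :=
  ∀ h : Fin r → (Fin r → G) → ℝ, (∀ i, Ind i (h i) ∧ ∀ x, 0 ≤ h i x ∧ h i x ≤ 1) →
    |av (fun y : Fin r → G => u (∑ i, y i) * ∏ i, h i y)| ≤ τ

/-! ### Averages -/

/-- Module Mrg. Uses: nothing. Proof. The map x ↦ x ∘ e from (κ → V) to (ι → V) is onto and all its fibres have the same number of elements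
card V ^ (card κ - card ι) (values outside the range of e are free): e.g. κ ≃ ι ⊕ (complement of the range) and
Equiv.sumArrowEquivProdArrow, Fintype.sum_prod_type. -/
def MrgStmt : Prop :=
  ∀ (ι κ V : Type) [Fintype ι] [Fintype κ] [DecidableEq ι] [DecidableEq κ] [Fintype V] [Nonempty V]
    (e : ι → κ), Function.Injective e → ∀ g : (ι → V) → ℝ,
    av (fun x : κ → V => g (fun i => x (e i))) = av g

/-- Module Upd. Uses: nothing. Proof. ∑_x ∑_v g (update x a v) = card V * ∑_x g x: the map (x, v) ↦ update x a v has fibres of card V elements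
(the lost value x a is free): Function.update and an equivalence (ι → V) × V ≃ (ι → V) × V, (x,v) ↦ (update x a v, x a). -/
def UpdStmt : Prop :=
  ∀ (ι V : Type) [Fintype ι] [DecidableEq ι] [Fintype V] [Nonempty V] (a : ι) (g : (ι → V) → ℝ),
    av (fun x : ι → V => av (fun v : V => g (Function.update x a v))) = av g

/-- Module Cs1 (Cauchy-Schwarz in one variable). Uses: Upd. Proof. h(x) = av_v H(update x a v), does not depend on a, b. By Upd
(P does not depend on a) av (P H) = av (P h). Cauchy-Schwarz (Finset.sum_mul_sq_le_sq_mul_sq or inner_mul_le_norm_mul_norm applied to √P and √P h):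
(av P h)^2 ≤ av P * av (P h^2) ≤ av Γ * av (Γ h^2) (0 ≤ P ≤ Γ). Finally av (Γ h^2) = av (Γ H (H ∘ swap)): apply Upd twice to the right side (a, then b):
with y = update (update x a v) b v', H y = H (update x a v) (H does not depend on b) and y ∘ swap a b = update (update x a v') b v, so
H (y ∘ swap) = H (update x a v'); Γ y = Γ x. -/
def Cs1Stmt : Prop :=
  ∀ (ι V : Type) [Fintype ι] [DecidableEq ι] [Fintype V] [Nonempty V] (a b : ι) (P H Γ : (ι → V) → ℝ),
    a ≠ b → Ind a P → Ind b P → Ind a Γ → Ind b Γ → Ind b H → (∀ x, 0 ≤ P x ∧ P x ≤ Γ x) →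
    (av (fun x => P x * H x)) ^ 2 ≤
      av Γ * av (fun x => Γ x * (H x * H (fun i => x (Equiv.swap a b i))))

/-! ### Weighted Gowers-Cauchy-Schwarz inequality -/

/-- exchange of the two copies according to σ -/
def tw {k : ℕ} {V : Type} (σ : Fin k → Bool) (x : Fin k × Bool → V) : Fin k × Bool → V :=
  fun p => x (p.1, xor p.2 (σ p.1))

/-- choices supported on s -/
def cube {k : ℕ} (s : Finset (Fin k)) : Finset (Fin k → Bool) :=
  univ.filter (fun σ => ∀ i, i ∉ s → σ i = false)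

/-- the second copy is only used for the vertex j -/
def Fr {k : ℕ} {V : Type} (j : Fin k) (g : (Fin k × Bool → V) → ℝ) : Prop :=
  ∀ i, i ≠ j → Ind (i, true) g

/-- intermediate expression: the vertices in s have been doubled -/
noncomputable def Qs {k : ℕ} {V : Type} [Fintype V] (F : (Fin k × Bool → V) → ℝ)
    (C γ : Fin k → (Fin k × Bool → V) → ℝ) (I s : Finset (Fin k)) : ℝ :=
  av (fun x : Fin k × Bool → V =>
    (∏ σ ∈ cube s, (F (tw σ x) * ∏ i ∈ I \ s, C i (tw σ x))) *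
      ∏ i ∈ s, ∏ σ ∈ cube (s.erase i), γ i (tw σ x))

/-- Module Gst (one step). Uses: Cs1. Proof. a = (i,false), b = (i,true), P(x) = ∏_{σ ∈ cube s} C i (tw σ x), Γ(x) = ∏_{σ ∈ cube s} γ i (tw σ x),
H(x) = (∏_{σ ∈ cube s} F(tw σ x) ∏_{l ∈ I \ insert i s} C l (tw σ x)) * ∏_{l ∈ s} ∏_{σ ∈ cube (s.erase l)} γ l (tw σ x), so Qs at s is av (P H)
(I \ s = insert i (I \ insert i s)). For σ ∈ cube s we have σ i = false, so tw σ x at (i,c) is x (i,c); as C i, γ i are independent of (i,false) and (i,true)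
(i ≠ j), P and Γ do not depend on a, b; H does not depend on b by Fr. x ∘ swap a b = tw (single i) x (single i = the choice true at i only), and
tw σ (tw (single i) x) = tw (σ with i flipped to true) x for σ ∈ cube s; cube (insert i s) is the disjoint union of cube s and its image under this flip,
the same for cube (insert i (s.erase l)) = cube ((insert i s).erase l) (l ∈ s), and cube ((insert i s).erase i) = cube s. So Γ(x) H(x) H(x ∘ swap) is the
integrand of Qs at insert i s. Cs1: (Qs s)^2 ≤ av Γ * Qs (insert i s) ≤ av Γ * |Qs (insert i s)| ≤ 2 |Qs (insert i s)| (av Γ ≥ 0 since Γ ≥ P ≥ 0). -/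
def GstStmt : Prop :=
  ∀ (k : ℕ) (V : Type) [Fintype V] [Nonempty V] (j : Fin k) (F : (Fin k × Bool → V) → ℝ)
    (C γ : Fin k → (Fin k × Bool → V) → ℝ) (I s : Finset (Fin k)) (i : Fin k),
    j ∉ I → s ⊆ I → i ∈ I → i ∉ s → Fr j F →
    (∀ l ∈ I, Fr j (C l) ∧ Fr j (γ l) ∧ Ind (l, false) (C l) ∧ Ind (l, false) (γ l) ∧
      ∀ x, 0 ≤ C l x ∧ C l x ≤ γ l x) →
    av (fun x => ∏ σ ∈ cube s, γ i (tw σ x)) ≤ 2 →
    (Qs F C γ I s) ^ 2 ≤ 2 * |Qs F C γ I (insert i s)|

/-- Module Gcs (weighted Gowers-Cauchy-Schwarz). Uses: Gst. Proof. Induction on s ⊆ I (Finset.induction_on): |Qs ∅|^(2^card s) ≤ 2^(2^card s - 1) |Qs s|: the step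
squares and uses Gst: |Q ∅|^(2^(c+1)) ≤ 2^(2^(c+1) - 2) |Q s|^2 ≤ 2^(2^(c+1) - 1) |Q (insert i s)|. cube ∅ = {fun _ => false}, tw of it is the identity, so Qs ∅ =
av (F ∏ C), and Qs I is the last expression (I \ I = ∅). -/
def GcsStmt : Prop :=
  ∀ (k : ℕ) (V : Type) [Fintype V] [Nonempty V] (j : Fin k) (F : (Fin k × Bool → V) → ℝ)
    (C γ : Fin k → (Fin k × Bool → V) → ℝ) (I : Finset (Fin k)),
    j ∉ I → Fr j F →
    (∀ l ∈ I, Fr j (C l) ∧ Fr j (γ l) ∧ Ind (l, false) (C l) ∧ Ind (l, false) (γ l) ∧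
      ∀ x, 0 ≤ C l x ∧ C l x ≤ γ l x) →
    (∀ i ∈ I, ∀ s ⊆ I, i ∉ s → av (fun x => ∏ σ ∈ cube s, γ i (tw σ x)) ≤ 2) →
    |av (fun x => F x * ∏ i ∈ I, C i x)| ^ (2 ^ I.card) ≤
      2 ^ (2 ^ I.card) * |av (fun x => (∏ σ ∈ cube I, F (tw σ x)) *
        ∏ i ∈ I, ∏ σ ∈ cube (I.erase i), γ i (tw σ x))|

/-- Module Alt. Uses: nothing. Proof. ∏_{c ∈ B} (f c - 1) = ∑_{A ⊆ B} (-1)^(card (B \ A)) ∏_{c ∈ A} f c (Finset.prod_sub / prod_add with powerset), means are additive, and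
∑_{A ⊆ B} (-1)^(card (B \ A)) = 0 for B nonempty, so av (Γ ∏ (f c - 1)) = ∑_A (-1)^.. (av (Γ ∏_A f) - 1). -/
def AltStmt : Prop :=
  ∀ (Ω κ : Type) [Fintype Ω] [DecidableEq κ] (B : Finset κ) (f : κ → Ω → ℝ) (Γ : Ω → ℝ) (η : ℝ),
    B.Nonempty → (∀ A ⊆ B, |av (fun x => Γ x * ∏ c ∈ A, f c x) - 1| ≤ η) →
    |av (fun x => Γ x * ∏ c ∈ B, (f c x - 1))| ≤ 2 ^ B.card * η

/-! ### The strong form of the linear forms condition -/

/-- the second copy at the vertex j only -/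
def one {k : ℕ} (j : Fin k) : Fin k → Bool := fun i => decide (i = j)

/-- Module Stf. Uses: Gcs, Alt. Proof. Write n1 = pk (fun _ => false), n2 = pk (one j). Apply Gcs with I = univ.erase j, F(x) = ν j (n1 x) - 1,
C i (x) = a i (n1 x) * b i (n2 x), γ i (x) = α i (n1 x) * β i (n2 x), where α i = ν i if a i ≤ ν i everywhere and α i = 1 otherwise (then a i ≤ 1), same for β i with b i.
n1 (tw σ x) = pk σ x and n2 (tw σ x) = pk (σ with j ↦ true) x if σ j = false. So ∏_{σ ∈ cube s} γ i (tw σ x) and, for A ⊆ cube I,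
∏_{σ ∈ A} ν j (pk σ x) * ∏_{i ∈ I} ∏_{σ ∈ cube (I.erase i)} γ i (tw σ x) are products of the form in HLFC for the set S of the pairs (j,σ) (σ ∈ A), (i,σ) with
α i = ν i and (i, σ with j ↦ true) with β i = ν i (pairwise different pairs; p.2 p.1 = false holds: σ ∈ cube (I.erase i) has σ i = false = σ j, and σ ∈ cube s, i ∉ s has
σ i = false). So these means are within η of 1 (≤ 2 if η ≤ 1), and Alt gives |last mean| ≤ 2^(2^(k-1)) η (card (cube I) = 2^(k-1)). Result:
|.|^(2^(k-1)) ≤ 2^(2^(k-1)) 2^(2^(k-1)) η ≤ ε^(2^(k-1)) for η = min 1 ((ε/4)^(2^(k-1))) . -/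
def StfStmt : Prop :=
  ∀ (k : ℕ) (ε : ℝ), 0 < ε → ∃ η : ℝ, 0 < η ∧ ∀ (V : Type) [Fintype V] [Nonempty V]
    (ν a b : Fin k → (Fin k → V) → ℝ) (j : Fin k), (∀ i, Ind i (ν i) ∧ ∀ x, 0 ≤ ν i x) → HLFC η ν →
    (∀ i, i ≠ j → Ind i (a i) ∧ Ind i (b i) ∧ (∀ x, 0 ≤ a i x) ∧ (∀ x, 0 ≤ b i x) ∧
      ((∀ x, a i x ≤ ν i x) ∨ ∀ x, a i x ≤ 1) ∧ ((∀ x, b i x ≤ ν i x) ∨ ∀ x, b i x ≤ 1)) →
    |av (fun x : Fin k × Bool → V => (ν j (pk (fun _ => false) x) - 1) *
      ∏ i ∈ univ.erase j, (a i (pk (fun _ => false) x) * b i (pk (one j) x)))| ≤ ε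

/-! ### Relative counting lemma -/

/-- mean over the vertex j of the product of the g i, i ∈ E -/
noncomputable def tr {k : ℕ} {V : Type} [Fintype V] (j : Fin k) (E : Finset (Fin k))
    (g : Fin k → (Fin k → V) → ℝ) (x : Fin k → V) : ℝ :=
  av (fun v : V => ∏ i ∈ E, g i (Function.update x j v))

/-- Module Pr2. Uses: Upd, Mrg. Proof. First: expand tr and use Upd for a = j (w does not depend on j). Second: by Mrg for the injection
Option (Fin k) → Fin k × Bool, none ↦ (j,true), some i ↦ (i,false), the mean on the right is a mean over Option (Fin k) → V, i.e. over pairs (x, v'), of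
w x ∏_{i ∈ E} a i x * ∏_{i ∈ E'} b i (update x j v'); that is the mean over x of w x (∏ a i x) tr j E' b x (tr j E' b x does not depend on x j), and by Upd for a = j it is the mean of
w (tr j E a) (tr j E' b). -/
def Pr2Stmt : Prop :=
  ∀ (k : ℕ) (V : Type) [Fintype V] [Nonempty V] (j : Fin k) (E E' : Finset (Fin k))
    (a b : Fin k → (Fin k → V) → ℝ) (w : (Fin k → V) → ℝ), Ind j w →
    av (fun x => w x * tr j E a x) = av (fun x => w x * ∏ i ∈ E, a i x) ∧
    av (fun x => w x * (tr j E a x * tr j E' b x)) =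
      av (fun x : Fin k × Bool → V => w (pk (fun _ => false) x) *
        ((∏ i ∈ E, a i (pk (fun _ => false) x)) * ∏ i ∈ E', b i (pk (one j) x)))

/-- Module Var. Uses: Pr2, Mrg. Proof. With w = 1 in Pr2: av (tr^2) = av ∏_{i∈E} ν i (pk 0 x) ν i (pk (one j) x) is in [1-η,1+η] by HLFC for the set of the pairs (i, false), (i, one j), i ∈ E
(j ∉ E so the choices vanish at i), av tr = av ∏_{i ∈ E} ν i x is in [1-η,1+η] (Mrg for i ↦ (i,false), HLFC). So av (tr - 1)^2 ≤ (1+η) - 2(1-η) + 1 ≤ 4η. The last claim: HLFC for the single pair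
(j,false) and Mrg. -/
def VarStmt : Prop :=
  ∀ (k : ℕ) (V : Type) [Fintype V] [Nonempty V] (η : ℝ) (ν : Fin k → (Fin k → V) → ℝ) (j : Fin k)
    (E : Finset (Fin k)), 0 ≤ η → j ∉ E → HLFC η ν →
    av (fun x => (tr j E ν x - 1) ^ 2) ≤ 4 * η ∧ av (ν j) ≤ 1 + η

/-- the counting lemma for families where at most n functions are not bounded by 1 -/
def ClN (k n : ℕ) : Prop :=
  ∀ ε : ℝ, 0 < ε → ∃ η τ : ℝ, 0 < η ∧ 0 < τ ∧ ∀ (V : Type) [Fintype V] [Nonempty V]
    (ν g g' : Fin k → (Fin k → V) → ℝ) (D : Finset (Fin k)), D.card ≤ n →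
    (∀ j, Ind j (ν j) ∧ Ind j (g j) ∧ Ind j (g' j)) → (∀ j x, 0 ≤ ν j x) →
    (∀ j x, 0 ≤ g j x) → (∀ j ∈ D, ∀ x, g j x ≤ ν j x) → (∀ j, j ∉ D → ∀ x, g j x ≤ 1) →
    (∀ j x, 0 ≤ g' j x ∧ g' j x ≤ 1) → HLFC η ν →
    (∀ j, Cut j τ (fun x => g j x - g' j x)) →
    |av (fun x => ∏ j, g j x) - av (fun x => ∏ j, g' j x)| ≤ ε

/-- Module Cl0. Uses: nothing. Proof. All g j are in [0,1] (D = ∅). Telescoping over j in the order of Fin k: ∏ g - ∏ g' = ∑_j (g j - g' j) ∏_{i<j} g' i ∏_{i>j} g i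
(e.g. Finset.prod_sub_ordered or induction); each summand has mean ≤ τ in absolute value by Cut j with h i = g' i for i < j, h i = g i for i > j. τ = ε/(k+1), η = 1. -/
def Cl0Stmt : Prop := ∀ k : ℕ, ClN k 0

/-- Module Cl1. Uses: Stf, Pr2, Var. Proof (n ≥ 0, ClN k n given, ε > 0; WLOG ε ≤ 1). Let e > 0 be small (e = (ε/32)^2, say; see the end), take η1, τ1 from ClN k n for e, η2 from Stf for e,
η = min(η1, η2, e^2/16, 1), τ = min(τ1, ε/2). Given a family with card D ≤ n+1. If card D ≤ n use ClN k n. Otherwise pick j ∈ D, D' = D.erase j, E = univ.erase j. T = tr j E g, T' = tr j E g',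
Tν = tr j D' ν (functions not depending on j). 0 ≤ T ≤ Tν (g i ≤ ν i for i ∈ D', g i ≤ 1 for i ∉ D), 0 ≤ T' ≤ 1. By Pr2 (w = g j resp. g' j; ∏ over all = w * ∏ over E)
av ∏ g - av ∏ g' = av (g j T) - av (g' j T') = av (g j (T - T')) + av ((g j - g' j) T'), and the last mean is av ((g j - g' j) ∏_{i≠j} g' i), at most τ (Cut j with h = g').
|av (g j (T - T'))| ≤ av (ν j |T - T'|) ≤ (av ν j)^(1/2) (av (ν j (T-T')^2))^(1/2), av ν j ≤ 2 (Var).
(A) av ((ν j - 1)(T - T')^2) = the combination 1, -2, 1 of the means av ((ν j - 1) T T), av ((ν j - 1) T T'), av ((ν j - 1) T' T'); by Pr2 and Stf each is ≤ e in absolute value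
(a i, b i ∈ {g i, g' i}). So av (ν j (T-T')^2) ≤ av (T-T')^2 + 4e.
(B) T1 = min(T,1). 0 ≤ T - T1 ≤ |Tν - 1|, so av (T-T1)^2 ≤ 4η ≤ e^2 and av (T-T1) ≤ e (Cauchy-Schwarz). (T1-T')^2 = (T1-T')(T-T') - (T1-T')(T-T1), |T1-T'| ≤ 1. av (T1 T) and av (T1 T'): by Pr2 they are the
counts of the families (g with g j replaced by T1) and (g' with g' j replaced by T1); their functions outside D' are bounded by 1, Cut j of the difference 0 is fine, so they differ by at most e by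
ClN k n. The same with T' instead of T1. So av ((T1-T')(T-T')) ≤ 2e, av (T1-T')^2 ≤ 3e, av (T-T')^2 ≤ 2 e^2 + 6 e ≤ 8e.
Total: ≤ τ + √2 √(12 e) ≤ ε/2 + 5√e ≤ ε. -/
def Cl1Stmt : Prop := ∀ k n : ℕ, ClN k n → ClN k (n + 1)

/-- Relative counting lemma. Module Cl. Uses: Cl0, Cl1. Proof. ClN k k by induction, D = univ. -/
def ClStmt : Prop :=
  ∀ (k : ℕ) (ε : ℝ), 0 < ε → ∃ η τ : ℝ, 0 < η ∧ 0 < τ ∧ ∀ (V : Type) [Fintype V] [Nonempty V]
    (ν g g' : Fin k → (Fin k → V) → ℝ),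
    (∀ j, Ind j (ν j) ∧ Ind j (g j) ∧ Ind j (g' j)) →
    (∀ j x, 0 ≤ g j x ∧ g j x ≤ ν j x) → (∀ j x, 0 ≤ g' j x ∧ g' j x ≤ 1) → HLFC η ν →
    (∀ j, Cut j τ (fun x => g j x - g' j x)) →
    |av (fun x => ∏ j, g j x) - av (fun x => ∏ j, g' j x)| ≤ ε

/-! ### Dense model theorem -/

/-- Module Reg (regret bound). Uses: nothing. Proof. ψ(S) = 0 for S ≤ 0, γ S^2/2 for 0 ≤ S ≤ 1/γ, S - 1/(2γ) for S ≥ 1/γ (= max over w in [0,1] of w S - w^2/(2γ)). Then
ψ(S + a) ≤ ψ(S) + w a + γ a^2/2 with w = max 0 (min 1 (γ S)) (elementary: ψ(S+a) = w' (S+a) - w'^2/(2γ) for some w' in [0,1], ψ(S) ≥ w S - w^2/(2γ), and w' (S+a) - w'^2/(2γ) ≤ ... complete the square: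
for all w' in [0,1]: w' S - w'^2/(2γ) ≤ ψ(S) - (w'-w)^2/(2γ) (strong concavity), and (w'-w) a ≤ (w'-w)^2/(2γ) + γ a^2/2). Sum over t < T: ψ(S_T) ≤ ∑ w_t a_t + γ T/2, and
max(S,0) ≤ ψ(S) + 1/(2γ). -/
def RegStmt : Prop :=
  ∀ (T : ℕ) (a : ℕ → ℝ) (γ : ℝ), 0 < γ → (∀ t, |a t| ≤ 1) →
    max (∑ s ∈ range T, a s) 0 ≤
      ∑ t ∈ range T, max 0 (min 1 (γ * ∑ s ∈ range t, a s)) * a t + 1 / (2 * γ) + γ * T / 2

open Classical in
/-- the test function of the family h: the mean of ∏ h i over the y with sum x -/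
noncomputable def phi {G : Type} [AddCommGroup G] [Fintype G] {r : ℕ}
    (h : Fin r → (Fin r → G) → ℝ) (x : G) : ℝ :=
  (∑ y : Fin r → G, if ∑ i, y i = x then ∏ i, h i y else 0) / (Fintype.card G : ℝ) ^ (r - 1)

/-- admissible families -/
def Adm {G : Type} {r : ℕ} (h : Fin r → (Fin r → G) → ℝ) : Prop :=
  ∀ i, Ind i (h i) ∧ ∀ x, 0 ≤ h i x ∧ h i x ≤ 1

/-- Module Phi. Uses: nothing (r ≥ 1). Proof. For every x there are exactly card G ^ (r-1) tuples y with sum x (the first r-1 coordinates are free), so 0 ≤ phi ≤ 1, and phi of h = 1 is 1. The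
pairing: (1/card G) ∑_x u x phi h x = (1/card G ^ r) ∑_y u(∑ y) ∏ h i y. -/
def PhiStmt : Prop :=
  ∀ (G : Type) [AddCommGroup G] [Fintype G] (r : ℕ), 1 ≤ r →
    (∀ h : Fin r → (Fin r → G) → ℝ, Adm h → ∀ x, 0 ≤ phi h x ∧ phi h x ≤ 1) ∧
    (∀ x : G, phi (fun (_ : Fin r) (_ : Fin r → G) => (1 : ℝ)) x = 1) ∧
    ∀ (h : Fin r → (Fin r → G) → ℝ) (u : G → ℝ),
      av (fun x => u x * phi h x) = av (fun y : Fin r → G => u (∑ i, y i) * ∏ i, h i y)

/-- Module Pml (products of test functions). Uses: Phi. Proof. Induction on the length of L. Empty list: h = 1 in CutG. One element: Phi and CutG. L = h :: h' :: L': phi h x * phi h' x =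
(1/card G^(r-1)) ∑_{z : ∑ z = 0} phi (h^z) x, where h^z i y = h i y * h' i (y + z) (substitute y' = y + z in the second sum; the number of z with sum 0 is card G ^ (r-1)), h^z is admissible; so the
mean of u phi h phi h' R is the mean over z of the means of u phi(h^z) R, each ≤ τ in absolute value by induction (the list h^z :: L' is shorter). -/
def PmlStmt : Prop :=
  ∀ (G : Type) [AddCommGroup G] [Fintype G] (r : ℕ) (τ : ℝ) (u : G → ℝ), 1 ≤ r → CutG r τ u →
    ∀ L : List (Fin r → (Fin r → G) → ℝ), (∀ h ∈ L, Adm h) →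
    |av (fun x => u x * (L.map (fun h => phi h x)).prod)| ≤ τ

/-- Module Pol. Uses: Phi, Pml. Proof. By Weierstrass (exists_polynomial_near_of_continuousOn on [-T,T]) there is a real polynomial P with |P(s) - max(s,0)| ≤ e on [-T,T]. C = ∑_m |coeff m| T^m. For
S x = ∑_{t<T} s_t phi(h_t) x we have |S x| ≤ T, and S^m is the sum over the T^m words of ± products of m test functions (Finset.sum_pow / prod_univ_sum; or induction on m: for every list L of
admissible families |av (u S^m ∏_L phi)| ≤ T^m τ, from Pml), so |av (u P(S))| ≤ C τ, and |av (u (P(S) - max(S,0)))| ≤ e av |u|. -/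
def PolStmt : Prop :=
  ∀ (r T : ℕ) (e : ℝ), 1 ≤ r → 0 < e → ∃ C : ℝ, 0 < C ∧ ∀ (G : Type) [AddCommGroup G] [Fintype G]
    (τ : ℝ) (u : G → ℝ), 0 ≤ τ → CutG r τ u →
    ∀ (h : ℕ → Fin r → (Fin r → G) → ℝ) (s : ℕ → ℝ), (∀ t, Adm (h t)) → (∀ t, |s t| = 1) →
    |av (fun x => u x * max (∑ t ∈ range T, s t * phi (h t) x) 0)| ≤ C * τ + e * av (fun x => |u x|)

/-- Module Dmt (dense model theorem). Uses: Reg, Phi, Pol. Proof. ε ≤ 1 WLOG, γ = ε/2, T = ⌈4/ε^2⌉, e = ε T/24, C from Pol for r, T, e, τ = min(1, ε T/(8 C)). Suppose no f' works. Claim: for all m ≤ T there are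
admissible h_t and signs s_t with s_t av ((f - f'_t) phi h_t) > ε for all t < m, f'_t = max 0 (min 1 (γ ∑_{s<t} s_s phi h_s)) (induction on m: f'_m is in [0,1], so CutG r ε (f - f'_m) fails; Phi turns
the failure into a test function and a sign; for t ≥ m put h_t = 1). Sum over t < T: ε T < av (f S) - ∑_t av (f'_t s_t phi h_t), S = ∑_{t<T} s_t phi h_t. Reg for a_t = s_t phi h_t x at every x:
max(S,0) ≤ ∑_t f'_t s_t phi h_t + 1/(2γ) + γ T/2, and f S ≤ ν max(S,0). So ε T < av ((ν - 1) max(S,0)) + 1/ε + ε T/4 ≤ av ((ν-1) max(S,0)) + ε T/2. By Pol the mean is ≤ C τ + e av |ν-1| ≤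
ε T/8 + e (av ν + 1) ≤ ε T/8 + 3e = ε T/4 (av ν ≤ 1 + τ ≤ 2 by CutG with h = 1): contradiction. -/
def DmtStmt : Prop :=
  ∀ (r : ℕ) (ε : ℝ), 1 ≤ r → 0 < ε → ∃ τ : ℝ, 0 < τ ∧ ∀ (G : Type) [AddCommGroup G] [Fintype G]
    (ν f : G → ℝ), (∀ x, 0 ≤ f x ∧ f x ≤ ν x) → CutG r τ (fun x => ν x - 1) →
    ∃ f' : G → ℝ, (∀ x, 0 ≤ f' x ∧ f' x ≤ 1) ∧ CutG r ε (fun x => f x - f' x)

/-! ### Transference -/

/-- Module Cfm (change of variables). Uses: nothing. Proof. For v in G and y : Fin r → G let x = x(v,y): x j = v, x (j.succAbove a) = the solution of (succAbove a - j) • x = y a (multiplication by the nonzero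
integer succAbove a - j, of absolute value ≤ r, is injective, hence bijective on the finite group G: also for negative integers). This is a bijection G × (Fin r → G) ≃ (Fin (r+1) → G), and frm j x = ∑ y.
(→) given h for Cut j, fix v and put h'_a y = h (j.succAbove a) (x(v,y)): Ind a and in [0,1]; the mean over x is the mean over v of the means over y, each ≤ τ in absolute value by CutG. (←) given h' for CutG
put h (j.succAbove a) x = h'_a (y(x)), y(x) a = (succAbove a - j) • x (succAbove a): these do not depend on x j. -/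
def CfmStmt : Prop :=
  ∀ (r : ℕ) (G : Type) [AddCommGroup G] [Fintype G] (u : G → ℝ) (τ : ℝ) (j : Fin (r + 1)),
    (∀ n : ℕ, 1 ≤ n → n ≤ r → Function.Injective (fun x : G => n • x)) →
    (CutG r τ u ↔ Cut j τ (fun x => u (frm j x)))

/-- Module Nuc. Uses: Gcs, Alt, Cfm, Mrg. Proof. j = the last index r. By Cfm it is enough that Cut j τ ((ν - 1) ∘ frm j). Given h, Gcs with I = univ.erase j, F(x) = ν (frm j (pk 0 x)) - 1,
C i x = h i (pk 0 x), γ i = 1 (pk 0 = pk (fun _ => false), frm j does not use the vertex j): |mean|^(2^r) ≤ 2^(2^r) |av ∏_{σ ∈ cube I} (ν (frm j (pk σ x)) - 1)| ≤ 2^(2^r) 2^(2^r) η by Alt (the means of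
∏_{σ ∈ A} ν (frm j (pk σ x)) are those in LFC for S = {(j,σ)}, Fintype.card (Fin (r+1) × Bool → G) = card G^(2(r+1))). The mean over Fin (r+1) × Bool → G of F ∏ C is the mean over Fin (r+1) → G (Mrg).
η = (τ/4)^(2^r). -/
def NucStmt : Prop :=
  ∀ (r : ℕ) (τ : ℝ), 0 < τ → ∃ η : ℝ, 0 < η ∧ ∀ (G : Type) [AddCommGroup G] [Fintype G] (ν : G → ℝ),
    (∀ n : ℕ, 1 ≤ n → n ≤ r → Function.Injective (fun x : G => n • x)) →
    LFC (r + 1) η ν → CutG r τ (fun x => ν x - 1)

/-- Module Cfg (progressions). Uses: nothing. Proof. frm j x = b - j • d' with b = ∑ i • x i, d' = ∑ x i. For fixed x i (i ≥ 2) the map (x 0, x 1) ↦ (b, d') = (x 1 + const, x 0 + x 1 + const) is a bijection of G × G,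
so every pair (b,d') has card G^(k-2) preimages; d = -d'. -/
def CfgStmt : Prop :=
  ∀ (k : ℕ) (G : Type) [AddCommGroup G] [Fintype G] (f : G → ℝ), 2 ≤ k →
    av (fun x : Fin k → G => ∏ j, f (frm j x)) =
      (∑ x : G, ∑ d : G, ∏ j : Fin k, f (x + (j : ℕ) • d)) / (Fintype.card G : ℝ) ^ 2

/-- Szemeredi's theorem with counts in finite groups. Module Dns. Uses: DhjStmt (interface of the chapter Dhj, a hypothesis). Proof. δ ≤ 1 WLOG (if δ > 1 nothing satisfies the hypothesis, G is nonempty). n from DhjStmt for (k, δ/4), n0 = n,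
c = (δ/2)^k (δ/4)/(k+1)^n. A = {x : f x ≥ δ/2}, card A ≥ (δ/2) card G. For (b,v) in G × G let A_{b,v} = {w : Fin n → Fin k | b + (∑_t w t) • v ∈ A}. For a fixed w and v the map b ↦ b + (∑ w) • v is a bijection, so
∑_{b,v} card A_{b,v} = k^n card G card A ≥ (δ/2) k^n card G^2, hence card A_{b,v} ≥ (δ/4) k^n for at least (δ/4) card G^2 pairs. For such a pair take a word w : Fin n → Option (Fin k) of a line: with
s = number of t with w t = none (1 ≤ s ≤ n) and c_w = the sum of the other letters, b + (c_w + s i) • v ∈ A for all i < k. Pigeonhole over the (k+1)^n words; for a fixed w the map (b,v) ↦ (b + c_w • v, s • v) is injective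
(s • is injective), so at most #{(x,d) : x + i • d ∈ A for all i < k} pairs belong to w. So this number is ≥ (δ/4) card G^2/(k+1)^n, and for these (x,d) the product is ≥ (δ/2)^k. -/
def DnsStmt : Prop :=
  ∀ (k : ℕ) (δ : ℝ), 1 ≤ k → 0 < δ → ∃ (c : ℝ) (n0 : ℕ), 0 < c ∧
    ∀ (G : Type) [AddCommGroup G] [Fintype G],
      (∀ n : ℕ, 1 ≤ n → n ≤ n0 → Function.Injective (fun x : G => n • x)) →
      ∀ f : G → ℝ, (∀ x, 0 ≤ f x ∧ f x ≤ 1) → δ * (Fintype.card G : ℝ) ≤ ∑ x, f x →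
      c * (Fintype.card G : ℝ) ^ 2 ≤ ∑ x : G, ∑ d : G, ∏ j : Fin k, f (x + (j : ℕ) • d)

/-- Module Fnl (the relative theorem). Uses: Dns, Cl, Dmt, Nuc, Cfm, Cfg, Phi. Proof. c0, n1 from Dns for (k, δ/2); η1, τ1 from Cl for (k, c0/2); τ2 from Dmt for (r = k-1, ε = min(τ1, δ/2)); η2 from Nuc for (r, τ2).
c = c0/2, η = min(η1, η2), n0 = max(n1, k). Given ν, f: Nuc gives CutG r τ2 (ν - 1) (LFC is monotone in η), Dmt gives f', CutG with h = 1 gives |av (f - f')| ≤ δ/2 (the mean over y : Fin r → G of u(∑ y) is av u, r ≥ 1),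
so ∑ f' ≥ (δ/2) card G and Dns gives the count c0 for f'. g j = f ∘ frm j, g' j = f' ∘ frm j, ν j = ν ∘ frm j (they do not depend on the vertex j because the coefficient j - j is 0), HLFC η1 holds (same means as in
LFC, Fintype.card (Fin k × Bool → G) = card G^(2k)), Cut j τ1 by Cfm. Cl: the counts differ by at most c0/2; Cfg translates the counts. -/
def FnlStmt : Prop := RelStmt

end Pool.Agent.Lib.MP_9f2731_nt.GP.Rel
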